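import Pool.Agent.Lib.Pf720ae.Alg.Cube
import Pool.Agent.Lib.Pf720ae.Avg

/-!
# Sets meeting every line in a cube-free set or in the whole line
-/

set_option autoImplicit false
set_option linter.unusedSectionVars false

open Finset

namespace Pool.Agent.Lib.Pf720ae.Alg

variable {κ : Type} [Fintype κ] [DecidableEq κ]

/-- natural vectors as integer vectors -/
def cz (m : κ → ℕ) : κ → ℤ := fun l => (m l : ℤ)

lemma cz_update (m : κ → ℕ) (l : κ) (t : ℕ) :
    cz (Function.update m l t) = Function.update (cz m) l (t : ℤ) := by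
  funext l'
  by_cases h : l' = l
  · subst h; simp [cz]
  · simp [cz, Function.update_of_ne h]

/-- the density bound for cube-free sets -/
noncomputable def bt (D N : ℕ) : ℝ := 4 * (N : ℝ) ^ (-(1 / 2 : ℝ) ^ D)

lemma bt_nonneg (D N : ℕ) : 0 ≤ bt D N := by unfold bt; positivity

open Classical in
lemma count_le {D : ℕ} {A : Set ℤ} (hA : ¬ HasCube (D + 1) A) {N : ℕ} (hN : 0 < N) :
    ∑ t ∈ range N, (if (t : ℤ) ∈ A then (1 : ℝ) else 0) ≤ N * bt D N := by
  have hN' : (0 : ℝ) < N := by exact_mod_cast hN
  rw [← Finset.sum_filter, Finset.sum_const, nsmul_eq_mul, mul_one]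
  have h1 := card_le_of_not_hasCube D hA 0 N
    (((range N).filter fun t : ℕ => (t : ℤ) ∈ A).image fun t : ℕ => (t : ℤ)) ?_ ?_
  · rw [Finset.card_image_of_injective _ Nat.cast_injective] at h1
    refine h1.trans (le_of_eq ?_)
    unfold bt
    rw [show (1 : ℝ) - (1 / 2) ^ D = 1 + -(1 / 2) ^ D by ring, Real.rpow_add hN', Real.rpow_one]
    ring
  · intro t ht
    obtain ⟨a, ha, rfl⟩ := Finset.mem_image.1 ht
    exact (Finset.mem_filter.1 ha).2
  · intro t ht
    obtain ⟨a, ha, rfl⟩ := Finset.mem_image.1 ht
    have := Finset.mem_range.1 (Finset.mem_filter.1 ha).1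
    constructor
    · positivity
    · rw [zero_add]; exact_mod_cast this

/-- every line meets `Z` in a set without cubes of dimension `D`, or lies in `Z` -/
def LP (D : ℕ) (Z : Set (κ → ℤ)) : Prop :=
  ∀ (n : κ → ℤ) (l : κ), HasCube D {t : ℤ | Function.update n l t ∈ Z} →
    ∀ t : ℤ, Function.update n l t ∈ Z

lemma avg_update (M : κ → ℕ) (hM : ∀ l, 0 < M l) (a : κ) (Φ : (κ → ℕ) → ℝ) :
    avg M Φ = avg M fun m => (M a : ℝ)⁻¹ * ∑ t ∈ range (M a), Φ (Function.update m a t) := by
  unfold avg
  congr 1
  rw [← Finset.mul_sum, sum_box_update, nsmul_eq_mul, ← mul_assoc, inv_mul_cancel₀, one_mul]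
  exact_mod_cast (hM a).ne'

open Classical in
/-- density of a set with the line property -/
theorem density {D : ℕ} {Z : Set (κ → ℤ)} (hZ : LP (D + 1) Z) {p : κ → ℤ} (hp : p ∉ Z)
    (M : κ → ℕ) (hM : ∀ l, 0 < M l) :
    avg M (fun m => if cz m ∈ Z then (1 : ℝ) else 0) ≤ ∑ l, bt D (M l) := by
  have key : ∀ s : Finset κ,
      avg M (fun m => if (fun l => if l ∈ s then cz m l else p l) ∈ Z then (1 : ℝ) else 0) ≤
        ∑ l ∈ s, bt D (M l) := by
    intro s
    induction s using Finset.induction_on with
    | empty =>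
      have : (fun l => if l ∈ (∅ : Finset κ) then (0 : ℤ) else p l) = p := by
        funext l; simp
      simp only [Finset.notMem_empty, if_false, Finset.sum_empty]
      have h2 : ¬ (fun l => p l) ∈ Z := hp
      simp only [h2, if_false]
      simp [avg]
    | insert a s ha ih =>
      rw [avg_update M hM a, Finset.sum_insert ha, add_comm]
      have h3 : avg M (fun m => (if (fun l => if l ∈ s then cz m l else p l) ∈ Z then (1 : ℝ) else 0) +
          bt D (M a)) ≤ ∑ l ∈ s, bt D (M l) + bt D (M a) := by
        rw [avg_add, avg_const hM]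
        linarith
      refine le_trans (avg_mono' M fun m _ => ?_) h3
      have hMa : (0 : ℝ) < M a := by exact_mod_cast hM a
      set h : κ → ℤ := fun l => if l ∈ s then cz m l else p l with hh
      have hupd : ∀ t : ℕ, (fun l => if l ∈ insert a s then cz (Function.update m a t) l else p l) =
          Function.update h a (t : ℤ) := by
        intro t
        funext l
        by_cases hl : l = a
        · subst hl; simp [cz]
        · rw [Function.update_of_ne hl, cz_update, Function.update_of_ne hl]
          simp [hh, hl]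
      simp only [hupd]
      by_cases hZh : h ∈ Z
      · rw [if_pos hZh]
        have h4 : ∑ t ∈ range (M a), (if Function.update h a (t : ℤ) ∈ Z then (1 : ℝ) else 0) ≤
            M a := by
          refine (Finset.sum_le_sum (g := fun _ => (1 : ℝ)) fun t _ => ?_).trans ?_
          · split_ifs <;> norm_num
          · simp
        have h5 : (M a : ℝ)⁻¹ * ∑ t ∈ range (M a),
            (if Function.update h a (t : ℤ) ∈ Z then (1 : ℝ) else 0) ≤ 1 := by
          rw [inv_mul_le_iff₀ hMa, mul_one]
          exact h4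
        have := bt_nonneg D (M a)
        linarith
      · rw [if_neg hZh, zero_add]
        have h4 : ¬ HasCube (D + 1) {t : ℤ | Function.update h a t ∈ Z} := by
          intro hc
          have := hZ h a hc (h a)
          rw [Function.update_eq_self] at this
          exact hZh this
        have h5 := count_le h4 (hM a)
        rw [inv_mul_le_iff₀ hMa]
        exact h5
  have := key Finset.univ
  simpa using this

open Classical in
/-- fibres of a map with the line property off the set of constant lines -/
theorem fibre_density {N : Type*} {D : ℕ} {G : (κ → ℤ) → N}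
    (h1 : ∀ ψ, LP (D + 1) {n | G n = ψ}) {B : Set (κ → ℤ)} (l : κ)
    (hB : ∀ n, n ∉ B → ∃ t : ℤ, G (Function.update n l t) ≠ G n) (ψ : N)
    (M : κ → ℕ) (hM : ∀ l, 0 < M l) :
    avg M (fun m => if cz m ∉ B ∧ G (cz m) = ψ then (1 : ℝ) else 0) ≤ bt D (M l) := by
  rw [avg_update M hM l]
  refine avg_le_of_le (bt_nonneg _ _) fun m => ?_
  have hMl : (0 : ℝ) < M l := by exact_mod_cast hM l
  rw [inv_mul_le_iff₀ hMl]
  by_cases hex : ∃ t₀ : ℕ, cz (Function.update m l t₀) ∉ B ∧ G (cz (Function.update m l t₀)) = ψ
  · obtain ⟨t₀, ht₀, ht₀'⟩ := hex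
    obtain ⟨t', ht'⟩ := hB _ ht₀
    rw [ht₀', cz_update, Function.update_idem] at ht'
    have h4 : ¬ HasCube (D + 1) {t : ℤ | Function.update (cz m) l t ∈ {n | G n = ψ}} := by
      intro hc
      exact ht' (h1 ψ (cz m) l hc t')
    refine le_trans (Finset.sum_le_sum fun t _ => ?_) (count_le h4 (hM l))
    rw [cz_update]
    by_cases h5 : G (Function.update (cz m) l (t : ℤ)) = ψ
    · rw [if_pos (c := (t : ℤ) ∈ _) h5]
      split_ifs <;> norm_num
    · rw [if_neg fun h => h5 h.2]
      split_ifs <;> norm_num
  · push Not at hex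
    rw [Finset.sum_eq_zero fun t _ => if_neg fun h => hex t h.1 h.2]
    exact mul_nonneg hMl.le (bt_nonneg _ _)

end Pool.Agent.Lib.Pf720ae.Alg
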