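import Pool.Agent.Lib.Pf720ae.Alg.Roots

/-!
# Zeros of exponential sums in Noetherian modules
-/

set_option autoImplicit false

open Finset

namespace Pool.Agent.Lib.Pf720ae.Alg

variable {R : Type*} [CommRing R] {P : Type*} [AddCommGroup P] [Module R P]

/-- every scalar acts injectively or nilpotently -/
def CoPrim (R : Type*) [CommRing R] (P : Type*) [AddCommGroup P] [Module R P] : Prop :=
  ∀ r : R, Inj P r ∨ Nil P r

/-- `q` is a good exponent for the family `l` in `P` -/
def Good {I : Type*} [Fintype I] (P : Type*) [AddCommGroup P] [Module R P] (l : I → Rˣ) (D q : ℕ) :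
    Prop :=
  ∀ φ : I → P, HasCube D {t : ℤ | ∑ i, ((l i ^ q) ^ t : Rˣ) • φ i = 0} →
    ∀ t : ℤ, ∑ i, ((l i ^ q) ^ t : Rˣ) • φ i = 0

lemma Good.mul {I : Type*} [Fintype I] {l : I → Rˣ} {D q : ℕ} (h : Good P l D q) {q' : ℕ}
    (hq' : 0 < q') : Good P l D (q * q') := by
  intro φ hc t
  have h0 : ∀ (t : ℤ) (i : I), ((l i ^ (q * q')) ^ t : Rˣ) = (l i ^ q) ^ ((q' : ℤ) * t) := by
    intro t i
    rw [pow_mul, zpow_mul, zpow_natCast]
  simp only [h0] at hc ⊢
  exact h φ (HasCube.dilate hq' hc) _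

/-- if `b ^ e₁` and `x ^ e₂` act as zero then `(1 + x) ^ (b ^ e₁ * e₂!)` acts as one -/
lemma pow_eq_one_of_nil {b : ℕ} (hb : 0 < b) {x : R} {e₁ e₂ : ℕ} (h1 : ∀ y : P, ((b : R)) ^ e₁ • y = 0)
    (h2 : ∀ y : P, x ^ e₂ • y = 0) (y : P) : ((1 + x) ^ (b ^ e₁ * e₂.factorial)) • y = y := by
  set Q := b ^ e₁ * e₂.factorial with hQ
  have hQ0 : 0 < Q := Nat.mul_pos (pow_pos hb _) (Nat.factorial_pos _)
  rw [add_comm, add_pow, Finset.sum_smul, Finset.sum_range_succ']
  have h3 : ∀ s ∈ Finset.range Q, (x ^ (s + 1) * 1 ^ (Q - (s + 1)) * (Q.choose (s + 1) : R)) • y = 0 := by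
    intro s hs
    rcases Nat.lt_or_ge s e₂ with h | h
    · have hdvd : b ^ e₁ ∣ Q.choose (s + 1) := by
        have h4 : (s + 1) ∣ e₂.factorial := Nat.dvd_factorial (Nat.succ_pos _) (by omega)
        obtain ⟨c, hc⟩ := h4
        obtain ⟨Q', hQ'⟩ : ∃ Q', Q = Q' + 1 := ⟨Q - 1, by omega⟩
        have h5 := Nat.add_one_mul_choose_eq Q' s
        rw [← hQ'] at h5
        refine ⟨c * Q'.choose s, ?_⟩
        have h6 : (s + 1) * Q.choose (s + 1) = (s + 1) * (b ^ e₁ * (c * Q'.choose s)) := by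
          rw [mul_comm, ← h5, hQ, hc]
          ring
        exact Nat.eq_of_mul_eq_mul_left (Nat.succ_pos _) h6
      obtain ⟨c, hc⟩ := hdvd
      rw [hc]
      push_cast
      rw [one_pow, mul_one, show x ^ (s + 1) * ((b : R) ^ e₁ * (c : R)) =
        (x ^ (s + 1) * (c : R)) * (b : R) ^ e₁ by ring, mul_smul, h1, smul_zero]
    · obtain ⟨k, rfl⟩ := Nat.exists_eq_add_of_le h
      rw [one_pow, mul_one, show x ^ (e₂ + k + 1) * ((Q.choose (e₂ + k + 1) : ℕ) : R) =
        (x ^ (k + 1) * ((Q.choose (e₂ + k + 1) : ℕ) : R)) * x ^ e₂ by ring, mul_smul, h2, smul_zero]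
  rw [Finset.sum_eq_zero h3, zero_add]
  simp

/-- good exponents exist in coprimary modules -/
theorem exists_good_coprim (hP : CoPrim R P) {I : Type*} [Fintype I] [DecidableEq I] (l : I → Rˣ) :
    ∃ q : ℕ, 0 < q ∧ Good P l (Fintype.card I) q := by
  classical
  -- exponents making the nilpotent differences appear
  have h1 : ∀ i j : I, ∃ d : ℕ, 0 < d ∧
      (Nil P ((l i : R) ^ d - (l j : R) ^ d) ∨ ∀ d' : ℕ, 0 < d' →
        Inj P ((l i : R) ^ d' - (l j : R) ^ d')) := by
    intro i j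
    by_cases h : ∃ d : ℕ, 0 < d ∧ Nil P ((l i : R) ^ d - (l j : R) ^ d)
    · obtain ⟨d, hd, hn⟩ := h
      exact ⟨d, hd, Or.inl hn⟩
    · push Not at h
      exact ⟨1, one_pos, Or.inr fun d' hd' => (hP _).resolve_right (h d' hd')⟩
  choose d hd hd' using h1
  set q₁ : ℕ := ∏ p : I × I, d p.1 p.2 with hq₁
  have hq₁0 : 0 < q₁ := Finset.prod_pos fun p _ => hd _ _
  have hdvd : ∀ i j, d i j ∣ q₁ := fun i j => Finset.dvd_prod_of_mem (fun p : I × I => d p.1 p.2)
    (Finset.mem_univ (i, j))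
  have hnil : ∀ i j, ∀ q : ℕ, d i j ∣ q → Nil P ((l i : R) ^ (d i j) - (l j : R) ^ (d i j)) →
      Nil P ((l i : R) ^ q - (l j : R) ^ q) := by
    intro i j q hq hn
    obtain ⟨c, hc⟩ := hq
    rw [hc, pow_mul, pow_mul]
    obtain ⟨z, hz⟩ := sub_dvd_pow_sub_pow ((l i : R) ^ d i j) ((l j : R) ^ d i j) c
    rw [hz]
    exact hn.mul z
  by_cases hchar : ∀ b : ℕ, 0 < b → Inj P (b : R)
  · -- integers act injectively
    refine ⟨q₁, hq₁0, fun φ hc t => ?_⟩
    refine zero_of_cube (fun i => l i ^ q₁) Finset.univ ?_ φ (by rwa [Finset.card_univ]) t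
    intro i _ j _ _
    rcases hd' i j with h | h
    · right
      push_cast
      exact ⟨hnil i j q₁ (hdvd i j) h, hchar⟩
    · left
      intro e he
      push_cast
      rw [← pow_mul, ← pow_mul]
      exact h _ (Nat.mul_pos hq₁0 he)
  · -- some integer acts nilpotently
    push Not at hchar
    obtain ⟨b, hb, hbn⟩ := hchar
    obtain ⟨e₁, he₁⟩ := (hP (b : R)).resolve_left hbn
    have h2 : ∀ i j : I, ∃ e : ℕ, Nil P ((l i : R) ^ (d i j) - (l j : R) ^ (d i j)) →
        ∀ y : P, ((((l i * (l j)⁻¹) ^ q₁ : Rˣ) : R) - 1) ^ e • y = 0 := by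
      intro i j
      by_cases hn : Nil P ((l i : R) ^ (d i j) - (l j : R) ^ (d i j))
      · have h3 := hnil i j q₁ (hdvd i j) hn
        have h4 : ((((l i * (l j)⁻¹) ^ q₁ : Rˣ) : R) - 1) =
            ((l i : R) ^ q₁ - (l j : R) ^ q₁) * (((l j)⁻¹ ^ q₁ : Rˣ) : R) := by
          rw [mul_pow, sub_mul]
          have h5 : (l j : R) ^ q₁ * (((l j)⁻¹ ^ q₁ : Rˣ) : R) = 1 := by
            rw [← Units.val_pow_eq_pow_val, ← Units.val_mul, inv_pow, mul_inv_cancel, Units.val_one]
          rw [h5]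
          push_cast
          ring
        obtain ⟨e, he⟩ := h3.mul (((l j)⁻¹ ^ q₁ : Rˣ) : R)
        exact ⟨e, fun _ y => by rw [h4]; exact he y⟩
      · exact ⟨0, fun h => absurd h hn⟩
    choose e he using h2
    set q₂ : ℕ := ∏ p : I × I, (b ^ e₁ * (e p.1 p.2).factorial) with hq₂
    have hq₂0 : 0 < q₂ := Finset.prod_pos fun p _ => Nat.mul_pos (pow_pos hb _) (Nat.factorial_pos _)
    have hdvd₂ : ∀ i j, b ^ e₁ * (e i j).factorial ∣ q₂ := fun i j =>
      Finset.dvd_prod_of_mem (fun p : I × I => b ^ e₁ * (e p.1 p.2).factorial)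
        (Finset.mem_univ (i, j))
    set q : ℕ := q₁ * q₂ with hq
    have hq0 : 0 < q := Nat.mul_pos hq₁0 hq₂0
    -- in the nilpotent case the powers act in the same way
    have hsame : ∀ i j, Nil P ((l i : R) ^ (d i j) - (l j : R) ^ (d i j)) →
        ∀ y : P, (l i ^ q : Rˣ) • y = (l j ^ q : Rˣ) • y := by
      intro i j hn y
      obtain ⟨c, hc⟩ := hdvd₂ i j
      have h5 : ∀ y : P, ((((l i * (l j)⁻¹) ^ q : Rˣ)) : R) • y = y := by
        intro y
        have h6 := pow_eq_one_of_nil (P := P) hb he₁ (he i j hn)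
        have h7 : ∀ c : ℕ, ∀ y : P, (((((l i * (l j)⁻¹) ^ q₁ : Rˣ) : R)) ^
            (b ^ e₁ * (e i j).factorial)) ^ c • y = y := by
          intro c
          induction c with
          | zero => intro y; simp
          | succ c ihc =>
            intro y
            rw [pow_succ, mul_smul]
            have h8 := h6 y
            rw [add_sub_cancel] at h8
            rw [h8, ihc]
        have h8 := h7 c y
        rw [← pow_mul, ← hc, ← Units.val_pow_eq_pow_val, ← pow_mul] at h8
        exact h8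
      have h9 := h5 ((l j ^ q : Rˣ) • y)
      rw [← Units.smul_def, smul_smul, mul_pow, inv_pow, mul_assoc, inv_mul_cancel, mul_one] at h9
      exact h9
    -- merge equal roots
    let rel : I → I → Prop := fun i j => ∀ y : P, (l i ^ q : Rˣ) • y = (l j ^ q : Rˣ) • y
    let st : Setoid I := ⟨rel, ⟨fun i y => rfl, fun h y => (h y).symm,
      fun h h' y => (h y).trans (h' y)⟩⟩
    let rep : I → I := fun i => Quotient.out (Quotient.mk st i)
    have hrep : ∀ i, rel (rep i) i := fun i => Quotient.exact (Quotient.out_eq (Quotient.mk st i))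
    have hrep' : ∀ i j, rel (rep i) (rep j) → rep i = rep j := by
      intro i j h
      have h1 : rel i j := fun y => ((hrep i y).symm.trans (h y)).trans (hrep j y)
      have h2 : Quotient.mk st i = Quotient.mk st j := Quotient.sound h1
      simp only [rep, h2]
    set s : Finset I := Finset.univ.image rep with hs
    have hzpow : ∀ i j, rel i j → ∀ (t : ℤ) (y : P), ((l i ^ q) ^ t : Rˣ) • y = ((l j ^ q) ^ t : Rˣ) • y := by
      intro i j hij t
      have hnat : ∀ (n : ℕ) (y : P), ((l i ^ q) ^ n : Rˣ) • y = ((l j ^ q) ^ n : Rˣ) • y := by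
        intro n
        induction n with
        | zero => intro y; simp
        | succ n ihn =>
          intro y
          rw [pow_succ, pow_succ, mul_smul, mul_smul, hij y, ihn]
      cases t with
      | ofNat n => intro y; simpa using hnat n y
      | negSucc n =>
        intro y
        rw [zpow_negSucc, zpow_negSucc, inv_smul_eq_iff, hnat (n + 1), smul_inv_smul]
    have hmerge : ∀ (φ : I → P) (t : ℤ), ∑ i, ((l i ^ q) ^ t : Rˣ) • φ i =
        ∑ c ∈ s, ((l c ^ q) ^ t : Rˣ) • ∑ i ∈ Finset.univ.filter (fun i => rep i = c), φ i := by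
      intro φ t
      rw [← Finset.sum_fiberwise_of_maps_to (t := s) (g := rep)
        (fun i _ => Finset.mem_image_of_mem _ (Finset.mem_univ i))]
      refine Finset.sum_congr rfl fun c _ => ?_
      rw [Finset.smul_sum]
      refine Finset.sum_congr rfl fun i hi => ?_
      rw [Finset.mem_filter] at hi
      rw [← hi.2]
      exact (hzpow _ _ (hrep i) t _).symm
    refine ⟨q, hq0, fun φ hc t => ?_⟩
    simp only [hmerge] at hc ⊢
    have hcard : s.card ≤ Fintype.card I := by
      rw [← Finset.card_univ]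
      exact Finset.card_image_le
    refine zero_of_cube (fun i => l i ^ q) s ?_ _ (hc.of_le hcard) t
    intro i hi j hj hij
    left
    intro e he0
    push_cast
    rw [← pow_mul, ← pow_mul]
    rcases hd' i j with h | h
    · exfalso
      apply hij
      obtain ⟨i', -, rfl⟩ := Finset.mem_image.1 hi
      obtain ⟨j', -, rfl⟩ := Finset.mem_image.1 hj
      exact hrep' _ _ (hsame _ _ h)
    · exact h _ (Nat.mul_pos hq0 he0)

/-- good exponents exist in Noetherian modules -/
theorem exists_good {N : Type*} [AddCommGroup N] [Module R N] [IsNoetherian R N]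
    {I : Type*} [Fintype I] [DecidableEq I] (l : I → Rˣ) :
    ∃ q : ℕ, 0 < q ∧ Good N l (Fintype.card I) q := by
  classical
  obtain ⟨S, hS, hprim⟩ := Submodule.isLasker R N ⊥
  have h1 : ∀ Q : S, CoPrim R (N ⧸ (Q : Submodule R N)) := by
    intro Q r
    obtain ⟨-, hQ⟩ := hprim Q.2
    by_cases h : ∃ x : N, r • x ∈ (Q : Submodule R N) ∧ x ∉ (Q : Submodule R N)
    · right
      obtain ⟨x, hx, hx'⟩ := h
      obtain ⟨e, he⟩ := (hQ hx).resolve_left hx'
      refine ⟨e, fun y => ?_⟩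
      obtain ⟨y, rfl⟩ := Submodule.Quotient.mk_surjective _ y
      rw [← Submodule.Quotient.mk_smul, Submodule.Quotient.mk_eq_zero]
      exact he (Submodule.smul_mem_pointwise_smul _ _ _ Submodule.mem_top)
    · left
      push Not at h
      intro y hy
      obtain ⟨y, rfl⟩ := Submodule.Quotient.mk_surjective _ y
      rw [← Submodule.Quotient.mk_smul, Submodule.Quotient.mk_eq_zero] at hy
      rw [Submodule.Quotient.mk_eq_zero]
      exact h y hy
  choose q hq0 hq using fun Q : S => exists_good_coprim (h1 Q) l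
  refine ⟨∏ Q, q Q, Finset.prod_pos fun Q _ => hq0 Q, fun φ hc t => ?_⟩
  set x := ∑ i, ((l i ^ (∏ Q, q Q)) ^ t : Rˣ) • φ i with hx
  have h2 : ∀ Q : S, x ∈ (Q : Submodule R N) := by
    intro Q
    obtain ⟨c, hc'⟩ := Finset.dvd_prod_of_mem q (Finset.mem_univ Q)
    have hc0 : 0 < c := by
      rcases Nat.eq_zero_or_pos c with h | h
      · rw [h, mul_zero] at hc'
        exact absurd hc' (Finset.prod_pos fun Q _ => hq0 Q).ne'
      · exact h
    have h3 := (hq Q).mul hc0
    rw [← hc'] at h3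
    rw [← Submodule.Quotient.mk_eq_zero]
    have hmk : ∀ t : ℤ, (Submodule.Quotient.mk (∑ i, ((l i ^ (∏ Q, q Q)) ^ t : Rˣ) • φ i) :
        N ⧸ (Q : Submodule R N)) =
        ∑ i, ((l i ^ (∏ Q, q Q)) ^ t : Rˣ) • (Submodule.Quotient.mk (φ i) :
          N ⧸ (Q : Submodule R N)) := by
      intro t
      rw [← Submodule.mkQ_apply, map_sum]
      rfl
    rw [hx, hmk]
    refine h3 _ (hc.mono fun t ht => ?_) t
    simp only [Set.mem_ofPred_eq] at ht ⊢
    rw [← hmk, ht, Submodule.Quotient.mk_zero]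
  have h4 : x ∈ S.inf id := by
    rw [Submodule.mem_finsetInf]
    intro Q hQ
    exact h2 ⟨Q, hQ⟩
  rw [hS] at h4
  exact (Submodule.mem_bot R).1 h4

end Pool.Agent.Lib.Pf720ae.Alg
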