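import Pool.Agent.Lib.Pf720ae.Alg.L2
import Pool.Agent.Lib.Pf720ae.Alg.Good
import Pool.Agent.Lib.Pf720ae.Coset

/-!
# Averages of characters along exponential sequences
-/

set_option autoImplicit false
set_option linter.unusedSectionVars false

open Finset MeasureTheory Filter Topology
open scoped ENNReal ComplexConjugate

namespace Pool.Agent.Lib.Pf720ae.Alg

variable {κ : Type} [Fintype κ] [DecidableEq κ]

/-- averages of functions of some of the coordinates -/
lemma avg_restrict (L : Finset κ) (Φ : ({l // l ∈ L} → ℕ) → ℝ) (M : κ → ℕ) (hM : ∀ l, 0 < M l) :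
    avg M (fun m => Φ fun l => m l) = avg (fun l : {l // l ∈ L} => M l) Φ := by
  classical
  unfold avg
  have hmaps : ∀ m ∈ box M, (fun l : {l // l ∈ L} => m l) ∈ box fun l : {l // l ∈ L} => M l := by
    intro m hm
    rw [mem_box] at hm ⊢
    exact fun l => hm l
  rw [← Finset.sum_fiberwise_of_maps_to hmaps]
  have hfib : ∀ m' ∈ box (fun l : {l // l ∈ L} => M l),
      ∑ m ∈ (box M).filter (fun m => (fun l : {l // l ∈ L} => m l) = m'), Φ (fun l => m l) =
        (∏ l : κ, if l ∈ L then (1 : ℝ) else M l) * Φ m' := by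
    intro m' hm'
    have h1 : (box M).filter (fun m => (fun l : {l // l ∈ L} => m l) = m') =
        Fintype.piFinset fun l => if h : l ∈ L then {m' ⟨l, h⟩} else range (M l) := by
      ext m
      rw [Finset.mem_filter, mem_box, Fintype.mem_piFinset]
      rw [mem_box] at hm'
      constructor
      · rintro ⟨h2, h3⟩ l
        by_cases hl : l ∈ L
        · rw [dif_pos hl, Finset.mem_singleton, ← h3]
        · rw [dif_neg hl, Finset.mem_range]
          exact h2 l
      · intro h2
        have h3 : (fun l : {l // l ∈ L} => m l) = m' := by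
          funext l
          have := h2 l
          rw [dif_pos l.2, Finset.mem_singleton] at this
          exact this
        refine ⟨fun l => ?_, h3⟩
        by_cases hl : l ∈ L
        · have h4 := congrFun h3 ⟨l, hl⟩
          simp only at h4
          rw [h4]
          exact hm' ⟨l, hl⟩
        · have := h2 l
          rw [dif_neg hl, Finset.mem_range] at this
          exact this
    have h2 : ∀ m ∈ (box M).filter (fun m => (fun l : {l // l ∈ L} => m l) = m'),
        Φ (fun l => m l) = Φ m' := by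
      intro m hm
      rw [(Finset.mem_filter.1 hm).2]
    rw [Finset.sum_congr rfl h2, Finset.sum_const, nsmul_eq_mul, h1, Fintype.card_piFinset]
    congr 1
    push_cast
    refine Finset.prod_congr rfl fun l _ => ?_
    by_cases hl : l ∈ L
    · rw [dif_pos hl, if_pos hl]; simp
    · rw [dif_neg hl, if_neg hl]; simp
  rw [Finset.sum_congr rfl hfib, ← Finset.mul_sum, ← mul_assoc]
  congr 1
  have h1 : (∏ l : κ, (M l : ℝ)) = (∏ l : κ, if l ∈ L then (1 : ℝ) else M l) *
      ∏ l : {l // l ∈ L}, (M l : ℝ) := by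
    have h2 : (∏ l : {l // l ∈ L}, (M l : ℝ)) = ∏ l : κ, if l ∈ L then (M l : ℝ) else 1 := by
      rw [Finset.prod_ite_mem, Finset.univ_inter, Finset.prod_coe_sort L fun l => (M l : ℝ)]
    rw [h2, ← Finset.prod_mul_distrib]
    refine Finset.prod_congr rfl fun l _ => ?_
    split_ifs <;> simp
  rw [h1, mul_inv, mul_comm, ← mul_assoc, mul_inv_cancel₀, one_mul]
  refine Finset.prod_ne_zero_iff.2 fun l _ => ?_
  split_ifs
  · exact one_ne_zero
  · exact_mod_cast (hM l).ne'

lemma Cvg.of_restrict (L : Finset κ) {Φ : ({l // l ∈ L} → ℕ) → ℝ} (h : Cvg Φ) :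
    Cvg fun m : κ → ℕ => Φ fun l => m l := by
  obtain ⟨a, ha⟩ := h
  refine ⟨a, ?_⟩
  have h1 : Tendsto (fun M : κ → ℕ => fun l : {l // l ∈ L} => M l) atTop atTop := by
    rw [tendsto_atTop]
    intro b
    filter_upwards [eventually_ge_atTop (fun l => if h : l ∈ L then b ⟨l, h⟩ else 0)] with M hM l
    have := hM l
    simp only [dif_pos l.2] at this
    exact this
  refine (ha.comp h1).congr' ?_
  filter_upwards [eventually_pos] with M hM
  exact (avg_restrict L Φ M hM).symm

variable {X : Type*} [MeasurableSpace X] {μ : Measure X} [IsProbabilityMeasure μ]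

/-- convergence of the averages of orthogonal functions along a map with the line property -/
theorem active_ae {N : Type*} {e : N → X → ℂ} (he : ∀ ψ, Measurable (e ψ))
    (he1 : ∀ ψ x, ‖e ψ x‖ ≤ 1) (horth : ∀ ψ ψ', ψ ≠ ψ' → ∫ x, e ψ x * conj (e ψ' x) ∂μ = 0)
    (G : (κ → ℤ) → N) (D : ℕ) (h1 : ∀ ψ, LP (D + 1) {n | G n = ψ})
    (h2 : ∀ l t₀, LP (D + 1) {n | G (Function.update n l (n l + t₀)) = G n})
    {T : ℂ → ℝ} (hT : T = Complex.re ∨ T = Complex.im) :
    ∀ᵐ x ∂μ, Cvg fun m : κ → ℕ => T (e (G (cz m)) x) := by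
  classical
  set L : Finset κ := Finset.univ.filter fun l => ∃ (n : κ → ℤ) (t : ℤ),
    G (Function.update n l t) ≠ G n with hL
  set ex : ({l // l ∈ L} → ℤ) → κ → ℤ := fun n l => if h : l ∈ L then n ⟨l, h⟩ else 0 with hex
  have hinact : ∀ l ∉ L, ∀ n t, G (Function.update n l t) = G n := by
    intro l hl n t
    by_contra hne
    exact hl (Finset.mem_filter.2 ⟨Finset.mem_univ _, n, t, hne⟩)
  have hred : ∀ n : κ → ℤ, G n = G (ex fun l => n l) := by
    intro n
    have key : ∀ s : Finset κ, (∀ l ∈ s, l ∉ L) → G (fun l => if l ∈ s then 0 else n l) = G n := by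
      intro s
      induction s using Finset.induction_on with
      | empty => intro _; simp
      | insert a s ha ih =>
        intro hs
        rw [← ih fun l hl => hs l (Finset.mem_insert_of_mem hl)]
        rw [← hinact a (hs a (Finset.mem_insert_self _ _)) (fun l => if l ∈ s then 0 else n l) 0]
        congr 1
        funext l
        by_cases hl : l = a
        · subst hl; simp
        · simp [hl]
    rw [← key Lᶜ fun l hl => Finset.mem_compl.1 hl]
    congr 1
    funext l
    by_cases hl : l ∈ L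
    · simp [hex, hl]
    · simp [hex, hl]
  have hexup : ∀ (n : {l // l ∈ L} → ℤ) (l : {l // l ∈ L}) (t : ℤ),
      ex (Function.update n l t) = Function.update (ex n) (l : κ) t := by
    intro n l t
    funext l'
    by_cases h : l' = l
    · subst h
      simp [hex]
    · rw [Function.update_of_ne h]
      simp only [hex]
      by_cases hl' : l' ∈ L
      · rw [dif_pos hl', dif_pos hl', Function.update_of_ne]
        intro h'
        exact h (congrArg Subtype.val h')
      · rw [dif_neg hl', dif_neg hl']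
  have hexl : ∀ (n : {l // l ∈ L} → ℤ) (l : {l // l ∈ L}), ex n l = n l := by
    intro n l
    simp [hex]
  set G' : ({l // l ∈ L} → ℤ) → N := fun n => G (ex n) with hG'
  have h1' : ∀ ψ, LP (D + 1) {n | G' n = ψ} := by
    intro ψ n l hc t
    have := h1 ψ (ex n) l (by
      refine hc.mono fun t ht => ?_
      simp only [Set.mem_ofPred_eq, hG', hexup] at ht ⊢
      exact ht) t
    simp only [Set.mem_ofPred_eq, hG', hexup] at this ⊢
    exact this
  have hiff : ∀ (n : {l // l ∈ L} → ℤ) (l₀ : {l // l ∈ L}) (t₀ : ℤ),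
      (G' (Function.update n l₀ (n l₀ + t₀)) = G' n) ↔
        (G (Function.update (ex n) l₀ (ex n l₀ + t₀)) = G (ex n)) := by
    intro n l₀ t₀
    simp only [hG', hexup, hexl]
  have h2' : ∀ l t₀, LP (D + 1) {n | G' (Function.update n l (n l + t₀)) = G' n} := by
    intro l₀ t₀ n l hc t
    have h3 := h2 l₀ t₀ (ex n) l (by
      refine hc.mono fun t ht => ?_
      simp only [Set.mem_ofPred_eq] at ht ⊢
      rw [hiff, hexup] at ht
      exact ht) t
    simp only [Set.mem_ofPred_eq] at h3 ⊢
    rw [hiff, hexup]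
    exact h3
  have hact : ∀ l : {l // l ∈ L}, ∃ t₀ : ℤ, ∃ n, G' (Function.update n l (n l + t₀)) ≠ G' n := by
    intro l
    obtain ⟨-, n, t, hnt⟩ := Finset.mem_filter.1 l.2
    refine ⟨t - n l, fun l => n l, ?_⟩
    rw [add_sub_cancel]
    intro h
    apply hnt
    simp only [hG'] at h
    have h3 : (fun l' : {l // l ∈ L} => Function.update n (l : κ) t l') =
        Function.update (fun l' : {l // l ∈ L} => n l') l t := by
      funext l'
      by_cases hl : l' = l
      · subst hl; simp
      · rw [Function.update_of_ne hl, Function.update_of_ne]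
        intro h'
        exact hl (Subtype.ext h')
    rw [hred (Function.update n l t), hred n, ← h, h3]
  choose t₀ ht₀ using hact
  have hfin : ∀ᵐ x ∂μ, Cvg fun m : {l // l ∈ L} → ℕ => T (e (G' (cz m)) x) := by
    by_cases hne : Nonempty {l // l ∈ L}
    · have := orth_ae he he1 horth G' D h1' t₀ (fun l => h2' l (t₀ l)) ht₀ hT
      filter_upwards [this] with x hx
      exact ⟨0, hx⟩
    · rw [not_nonempty_iff] at hne
      refine Eventually.of_forall fun x => ?_
      have : ∀ m : {l // l ∈ L} → ℕ, T (e (G' (cz m)) x) = T (e (G' 0) x) := by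
        intro m
        congr 3
        exact Subsingleton.elim _ _
      exact (Cvg.const (T (e (G' 0) x))).congr fun m => (this m).symm
  filter_upwards [hfin] with x hx
  refine (Cvg.of_restrict L hx).congr fun m => ?_
  rw [hred (cz m)]
  rfl

section module

variable {R : Type*} [CommRing R] {N : Type*} [AddCommGroup N] [Module R N]
  {J : Type*} [Fintype J] [DecidableEq J]

/-- the exponential sequence -/
def Fs (γ : J → Multiplicative (κ → ℤ) →* Rˣ) (χ : J → N) (n : κ → ℤ) : N :=
  ∑ j, (γ j (Multiplicative.ofAdd n) : Rˣ) • χ j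

variable (γ : J → Multiplicative (κ → ℤ) →* Rˣ)

/-- the roots in direction `l` -/
def rt (l : κ) : Option J → Rˣ
  | none => 1
  | some j => γ j (Multiplicative.ofAdd (Pi.single l 1))

lemma exists_good_all [IsNoetherian R N] :
    ∃ q : ℕ, 0 < q ∧ ∀ l, Good N (rt γ l) (Fintype.card (Option J)) q := by
  choose q hq0 hq using fun l => exists_good (N := N) (rt γ l)
  refine ⟨∏ l, q l, Finset.prod_pos fun l _ => hq0 l, fun l => ?_⟩
  obtain ⟨c, hc⟩ := Finset.dvd_prod_of_mem q (Finset.mem_univ l)
  rw [hc]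
  refine (hq l).mul ?_
  rcases Nat.eq_zero_or_pos c with h | h
  · rw [h, mul_zero] at hc
    exact absurd hc (Finset.prod_pos fun l _ => hq0 l).ne'
  · exact h

lemma update_eq (n : κ → ℤ) (l : κ) (t : ℤ) :
    Function.update n l t = Function.update n l 0 + t • Pi.single l 1 := by
  funext l'
  by_cases h : l' = l
  · subst h; simp
  · simp [Function.update_of_ne h, Pi.single_eq_of_ne h]

lemma Fs_update {q : ℕ} (χ : J → N) (r n : κ → ℤ) (l : κ) (t : ℤ) :
    Fs γ χ ((q : ℤ) • Function.update n l t + r) =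
      ∑ j, ((rt γ l (some j) ^ q) ^ t : Rˣ) •
        ((γ j (Multiplicative.ofAdd ((q : ℤ) • Function.update n l 0 + r)) : Rˣ) • χ j) := by
  unfold Fs
  refine Finset.sum_congr rfl fun j _ => ?_
  rw [smul_smul]
  congr 1
  have h1 : (q : ℤ) • Function.update n l t + r =
      (t * q) • Pi.single l 1 + ((q : ℤ) • Function.update n l 0 + r) := by
    rw [update_eq n l t, smul_add, smul_smul]
    rw [mul_comm (q : ℤ) t]
    abel
  rw [h1, ofAdd_add, map_mul, ofAdd_zsmul, map_zpow]
  congr 1
  rw [mul_comm, zpow_mul, zpow_natCast]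
  rfl

lemma LP_Fs {q : ℕ} (hq : ∀ l, Good N (rt γ l) (Fintype.card (Option J)) q) (χ : J → N)
    (r : κ → ℤ) (ψ : N) : LP (Fintype.card (Option J)) {n | Fs γ χ ((q : ℤ) • n + r) = ψ} := by
  intro n l hc t
  have key : ∀ t : ℤ, Fs γ χ ((q : ℤ) • Function.update n l t + r) - ψ =
      ∑ i : Option J, ((rt γ l i ^ q) ^ t : Rˣ) • (Option.elim i (-ψ) fun j =>
        ((γ j (Multiplicative.ofAdd ((q : ℤ) • Function.update n l 0 + r)) : Rˣ) • χ j)) := by
    intro t
    rw [Fintype.sum_option, Fs_update]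
    simp [rt]
    abel
  have h1 := hq l _ (hc.mono fun t ht => by
    simp only [Set.mem_ofPred_eq] at ht ⊢
    rw [← key t, ht, sub_self]) t
  rw [← key t, sub_eq_zero] at h1
  exact h1

lemma LP_diff {q : ℕ} (hq : ∀ l, Good N (rt γ l) (Fintype.card (Option J)) q) (χ : J → N)
    (r : κ → ℤ) (l₀ : κ) (t₀ : ℤ) :
    LP (Fintype.card (Option J)) {n | Fs γ χ ((q : ℤ) • Function.update n l₀ (n l₀ + t₀) + r) =
      Fs γ χ ((q : ℤ) • n + r)} := by
  have key : ∀ n : κ → ℤ, Fs γ χ ((q : ℤ) • Function.update n l₀ (n l₀ + t₀) + r) -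
      Fs γ χ ((q : ℤ) • n + r) = Fs γ (fun j =>
        (γ j (Multiplicative.ofAdd ((q : ℤ) • (t₀ • Pi.single l₀ 1))) : Rˣ) • χ j - χ j)
          ((q : ℤ) • n + r) := by
    intro n
    unfold Fs
    rw [← Finset.sum_sub_distrib]
    refine Finset.sum_congr rfl fun j _ => ?_
    rw [smul_sub, smul_smul]
    congr 2
    rw [← map_mul, ← ofAdd_add]
    congr 2
    have : Function.update n l₀ (n l₀ + t₀) = n + t₀ • Pi.single l₀ 1 := by
      funext l'
      by_cases h : l' = l₀
      · subst h; simp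
      · simp [Function.update_of_ne h, Pi.single_eq_of_ne h]
    rw [this, smul_add]
    abel
  have h1 := LP_Fs γ hq (fun j =>
    (γ j (Multiplicative.ofAdd ((q : ℤ) • (t₀ • Pi.single l₀ 1))) : Rˣ) • χ j - χ j) r 0
  have h2 : {n | Fs γ χ ((q : ℤ) • Function.update n l₀ (n l₀ + t₀) + r) =
      Fs γ χ ((q : ℤ) • n + r)} = {n | Fs γ (fun j =>
        (γ j (Multiplicative.ofAdd ((q : ℤ) • (t₀ • Pi.single l₀ 1))) : Rˣ) • χ j - χ j)
          ((q : ℤ) • n + r) = 0} := by
    ext n
    simp only [Set.mem_ofPred_eq]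
    rw [← key n, sub_eq_zero]
  rw [h2]
  exact h1

theorem seq_ae [IsNoetherian R N] {e : N → X → ℂ} (he : ∀ ψ, Measurable (e ψ))
    (he1 : ∀ ψ x, ‖e ψ x‖ ≤ 1) (horth : ∀ ψ ψ', ψ ≠ ψ' → ∫ x, e ψ x * conj (e ψ' x) ∂μ = 0)
    (χ : J → N) {T : ℂ → ℝ} (hT : T = Complex.re ∨ T = Complex.im) :
    ∀ᵐ x ∂μ, Cvg fun m : κ → ℕ => T (e (Fs γ χ (cz m)) x) := by
  obtain ⟨q, hq0, hq⟩ := exists_good_all (N := N) γ
  have hcard : Fintype.card (Option J) = Fintype.card J + 1 := Fintype.card_option
  have h1 : ∀ c : κ → ℕ, ∀ᵐ x ∂μ, Cvg fun m : κ → ℕ =>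
      T (e (Fs γ χ ((q : ℤ) • cz m + cz c)) x) := by
    intro c
    refine active_ae he he1 horth (fun n => Fs γ χ ((q : ℤ) • n + cz c)) (Fintype.card J) ?_ ?_ hT
    · intro ψ
      rw [← hcard]
      exact LP_Fs γ hq χ (cz c) ψ
    · intro l t₀
      rw [← hcard]
      exact LP_diff γ hq χ (cz c) l t₀
  filter_upwards [ae_all_iff.2 h1] with x hx
  refine Cvg.of_cosets hq0 fun c => (hx c).congr fun m => ?_
  have h2 : (q : ℤ) • cz m + cz c = cz (q • m + c) := by
    funext l
    simp [cz]
  rw [h2]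

end module

end Pool.Agent.Lib.Pf720ae.Alg
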