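import Pool.Agent.Lib.Pf720ae.Alg.Lines

/-!
# Almost everywhere convergence from power-saving mean-square bounds
-/

set_option autoImplicit false
set_option linter.unusedSectionVars false

open Finset MeasureTheory Filter Topology
open scoped ENNReal

namespace Pool.Agent.Lib.Pf720ae.Alg

variable {κ : Type} [Fintype κ] [DecidableEq κ]

lemma avg_diff (M M' : κ → ℕ) (hM' : ∀ l, 0 < M' l) (hle : ∀ l, M' l ≤ M l)
    (Φ : (κ → ℕ) → ℝ) (hΦ : ∀ m, |Φ m| ≤ 1) :
    |avg M Φ - avg M' Φ| ≤ 2 * (1 - ∏ l, (M' l : ℝ) / M l) := by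
  have hM : ∀ l, 0 < M l := fun l => (hM' l).trans_le (hle l)
  have hP := prod_cast_pos hM
  have hP' := prod_cast_pos hM'
  have hsub : box M' ⊆ box M := by
    intro m hm
    rw [mem_box] at hm ⊢
    exact fun l => (hm l).trans_le (hle l)
  have h1 : |∑ m ∈ box M, Φ m - ∑ m ∈ box M', Φ m| ≤ ∏ l, (M l : ℝ) - ∏ l, (M' l : ℝ) := by
    rw [← Finset.sum_sdiff hsub, add_sub_cancel_right]
    refine (Finset.abs_sum_le_sum_abs _ _).trans ?_
    refine (Finset.sum_le_sum fun m _ => hΦ m).trans ?_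
    rw [Finset.sum_const, nsmul_eq_mul, mul_one, Finset.card_sdiff_of_subset hsub, card_box,
      card_box, Nat.cast_sub (Finset.prod_le_prod' fun l _ => hle l)]
    push_cast
    exact le_rfl
  have h2 : |∑ m ∈ box M', Φ m| ≤ ∏ l, (M' l : ℝ) := by
    refine (Finset.abs_sum_le_sum_abs _ _).trans ?_
    refine (Finset.sum_le_sum fun m _ => hΦ m).trans ?_
    rw [Finset.sum_const, nsmul_eq_mul, mul_one, card_box]
    push_cast
    exact le_rfl
  have hle' : ∏ l, (M' l : ℝ) ≤ ∏ l, (M l : ℝ) :=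
    Finset.prod_le_prod (fun l _ => by positivity) fun l _ => by exact_mod_cast hle l
  rw [Finset.prod_div_distrib]
  set P := ∏ l, (M l : ℝ) with hPd
  set P' := ∏ l, (M' l : ℝ) with hPd'
  set S := ∑ m ∈ box M, Φ m with hS
  set S' := ∑ m ∈ box M', Φ m with hS'
  unfold avg
  rw [← hPd, ← hPd', ← hS, ← hS']
  have h3 : P⁻¹ * S - P'⁻¹ * S' = P⁻¹ * (S - S') - (1 - P' / P) * (P'⁻¹ * S') := by
    field_simp
    ring
  rw [h3]
  have h4 : 0 ≤ 1 - P' / P := by
    rw [sub_nonneg, div_le_one hP]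
    exact hle'
  have h5 : |P⁻¹ * (S - S')| ≤ 1 - P' / P := by
    rw [abs_mul, abs_of_pos (inv_pos.2 hP)]
    calc P⁻¹ * |S - S'| ≤ P⁻¹ * (P - P') := by gcongr
      _ = 1 - P' / P := by field_simp
  have h6 : |P'⁻¹ * S'| ≤ 1 := by
    rw [abs_mul, abs_of_pos (inv_pos.2 hP'), inv_mul_le_iff₀ hP', mul_one]
    exact h2
  calc |P⁻¹ * (S - S') - (1 - P' / P) * (P'⁻¹ * S')|
      ≤ |P⁻¹ * (S - S')| + |(1 - P' / P) * (P'⁻¹ * S')| := abs_sub _ _
    _ ≤ (1 - P' / P) + (1 - P' / P) * 1 := by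
        have h7 : |(1 - P' / P) * (P'⁻¹ * S')| ≤ (1 - P' / P) * 1 := by
          rw [abs_mul, abs_of_nonneg h4]
          exact mul_le_mul_of_nonneg_left h6 h4
        exact add_le_add h5 h7
    _ = 2 * (1 - P' / P) := by ring

/-- the largest `r` with `(r + 1) ^ s ≤ m` -/
def fl (s m : ℕ) : ℕ := Nat.findGreatest (fun r => (r + 1) ^ s ≤ m) m

lemma fl_spec {s m : ℕ} (hm : 0 < m) : (fl s m + 1) ^ s ≤ m := by
  have := Nat.findGreatest_spec (P := fun r => (r + 1) ^ s ≤ m) (m := 0) (n := m) (Nat.zero_le _)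
    (by simpa using (Nat.succ_le_of_lt hm))
  exact this

lemma le_fl {s m r : ℕ} (hs : 0 < s) (h : (r + 1) ^ s ≤ m) : r ≤ fl s m := by
  refine Nat.le_findGreatest ?_ h
  have : r + 1 ≤ (r + 1) ^ s := Nat.le_self_pow hs.ne' _
  omega

lemma lt_fl {s m : ℕ} (hs : 0 < s) : m < (fl s m + 2) ^ s := by
  by_contra h
  push Not at h
  have := le_fl (r := fl s m + 1) hs h
  omega

lemma tendsto_fl {s : ℕ} (hs : 0 < s) : Tendsto (fl s) atTop atTop := by
  rw [tendsto_atTop]
  intro b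
  filter_upwards [eventually_ge_atTop ((b + 1) ^ s)] with m hm
  exact le_fl hs hm

lemma tendsto_coord (l : κ) : Tendsto (fun M : κ → ℕ => M l) atTop atTop := by
  rw [tendsto_atTop]
  intro b
  filter_upwards [eventually_ge_atTop (fun _ => b)] with M hM using hM l

lemma summable_prod_sq : Summable fun ρ : κ → ℕ => ∏ l, (1 / ((ρ l : ℝ) + 1) ^ 2) := by
  have h0 : Summable fun n : ℕ => (1 / ((n : ℝ) + 1) ^ 2) := by
    have := (summable_nat_add_iff (f := fun n : ℕ => 1 / (n : ℝ) ^ 2) 1).2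
      (Real.summable_one_div_nat_pow.2 one_lt_two)
    simpa using this
  refine summable_of_sum_le (c := (∑' n : ℕ, (1 / ((n : ℝ) + 1) ^ 2)) ^ Fintype.card κ)
    (fun ρ => Finset.prod_nonneg fun l _ => by positivity) fun S => ?_
  -- embed the finite set in a box
  obtain ⟨K, hK⟩ : ∃ K : ℕ, ∀ ρ ∈ S, ∀ l, ρ l < K := by
    refine ⟨S.sup (fun ρ => Finset.univ.sup ρ) + 1, fun ρ hρ l => Nat.lt_succ_of_le ?_⟩
    exact (Finset.le_sup (f := ρ) (Finset.mem_univ l)).trans
      (Finset.le_sup (f := fun ρ : κ → ℕ => Finset.univ.sup ρ) hρ)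
  have hsub : S ⊆ Fintype.piFinset fun _ : κ => range K := by
    intro ρ hρ
    rw [Fintype.mem_piFinset]
    exact fun l => Finset.mem_range.2 (hK ρ hρ l)
  calc ∑ ρ ∈ S, ∏ l, (1 / ((ρ l : ℝ) + 1) ^ 2)
      ≤ ∑ ρ ∈ Fintype.piFinset fun _ : κ => range K, ∏ l, (1 / ((ρ l : ℝ) + 1) ^ 2) :=
        Finset.sum_le_sum_of_subset_of_nonneg hsub fun ρ _ _ =>
          Finset.prod_nonneg fun l _ => by positivity
    _ = ∏ _l : κ, ∑ n ∈ range K, (1 / ((n : ℝ) + 1) ^ 2) := by
        rw [Finset.prod_univ_sum]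
    _ ≤ ∏ _l : κ, ∑' n : ℕ, (1 / ((n : ℝ) + 1) ^ 2) := by
        refine Finset.prod_le_prod (fun l _ => Finset.sum_nonneg fun n _ => by positivity)
          fun l _ => ?_
        exact h0.sum_le_tsum _ fun n _ => by positivity
    _ = _ := by rw [Finset.prod_const, Finset.card_univ]

lemma bt_pow (D n : ℕ) : bt D ((n + 1) ^ (2 * Fintype.card κ * 2 ^ D)) =
    4 / ((n : ℝ) + 1) ^ (2 * Fintype.card κ) := by
  unfold bt
  push_cast
  have h1 : (0 : ℝ) ≤ (n : ℝ) + 1 := by positivity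
  have h2 : (((n : ℝ) + 1) ^ (2 * Fintype.card κ * 2 ^ D)) ^ (-(1 / 2 : ℝ) ^ D) =
      (((n : ℝ) + 1) ^ (2 * Fintype.card κ))⁻¹ := by
    rw [← Real.rpow_natCast ((n : ℝ) + 1) (2 * Fintype.card κ * 2 ^ D), ← Real.rpow_mul h1,
      ← Real.rpow_natCast ((n : ℝ) + 1) (2 * Fintype.card κ), ← Real.rpow_neg h1]
    congr 1
    push_cast
    rw [one_div, inv_pow]
    field_simp
  rw [h2]
  rfl

theorem ae_tendsto [Nonempty κ] {X : Type*} [MeasurableSpace X] {μ : Measure X}
    [IsProbabilityMeasure μ] {u : (κ → ℕ) → X → ℝ} (hu : ∀ m, Measurable (u m))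
    (hu1 : ∀ m x, |u m x| ≤ 1) (D : ℕ)
    (h : ∀ M : κ → ℕ, (∀ l, 0 < M l) → ∀ l,
      ∫ x, (avg M fun m => u m x) ^ 2 ∂μ ≤ bt D (M l)) :
    ∀ᵐ x ∂μ, Tendsto (fun M : κ → ℕ => avg M fun m => u m x) atTop (𝓝 0) := by
  set c := Fintype.card κ with hc
  have hc0 : 0 < c := Fintype.card_pos
  set s := 2 * c * 2 ^ D with hs
  have hs0 : 0 < s := by positivity
  set gr : (κ → ℕ) → κ → ℕ := fun ρ l => (ρ l + 1) ^ s with hgr
  have hgr0 : ∀ ρ l, 0 < gr ρ l := fun ρ l => by positivity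
  have hmeas : ∀ M : κ → ℕ, Measurable fun x => avg M fun m => u m x := fun M => by
    unfold avg
    exact (Finset.measurable_fun_sum _ fun m _ => hu m).const_mul _
  have hbd : ∀ M : κ → ℕ, ∀ x, |avg M fun m => u m x| ≤ 1 := fun M x =>
    abs_avg_le_of_le zero_le_one fun m => hu1 m x
  -- the square integrals along the grid
  have hint : ∀ ρ : κ → ℕ, ∫ x, (avg (gr ρ) fun m => u m x) ^ 2 ∂μ ≤
      4 * ∏ l, (1 / ((ρ l : ℝ) + 1) ^ 2) := by
    intro ρ
    obtain ⟨l₀, hl₀⟩ := Finite.exists_max ρ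
    refine (h (gr ρ) (hgr0 ρ) l₀).trans ?_
    simp only [hgr, hs, hc]
    rw [bt_pow, ← hc]
    have h1 : ∏ l, ((ρ l : ℝ) + 1) ^ 2 ≤ ((ρ l₀ : ℝ) + 1) ^ (2 * c) := by
      calc ∏ l, ((ρ l : ℝ) + 1) ^ 2 ≤ ∏ _l : κ, ((ρ l₀ : ℝ) + 1) ^ 2 := by
            refine Finset.prod_le_prod (fun l _ => by positivity) fun l _ => ?_
            have := hl₀ l
            gcongr
        _ = ((ρ l₀ : ℝ) + 1) ^ (2 * c) := by
            rw [Finset.prod_const, Finset.card_univ, ← pow_mul]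
    have h2 : ∏ l, (1 / ((ρ l : ℝ) + 1) ^ 2) = 1 / ∏ l, ((ρ l : ℝ) + 1) ^ 2 := by
      rw [Finset.prod_div_distrib, Finset.prod_const_one]
    rw [h2, mul_one_div]
    have h3 : 0 < ∏ l, ((ρ l : ℝ) + 1) ^ 2 := Finset.prod_pos fun l _ => by positivity
    exact div_le_div_of_nonneg_left (by norm_num) h3 h1
  have hlint : ∀ ρ : κ → ℕ, ∫⁻ x, ENNReal.ofReal ((avg (gr ρ) fun m => u m x) ^ 2) ∂μ ≤
      ENNReal.ofReal (4 * ∏ l, (1 / ((ρ l : ℝ) + 1) ^ 2)) := by
    intro ρ
    rw [← ofReal_integral_eq_lintegral_ofReal]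
    · exact ENNReal.ofReal_le_ofReal (hint ρ)
    · refine Integrable.of_bound ((hmeas _).pow_const 2).aestronglyMeasurable 1
        (Eventually.of_forall fun x => ?_)
      rw [Real.norm_eq_abs, abs_pow]
      exact pow_le_one₀ (abs_nonneg _) (hbd _ x)
    · exact Eventually.of_forall fun x => sq_nonneg _
  have hsum : ∑' ρ : κ → ℕ, ENNReal.ofReal (4 * ∏ l, (1 / ((ρ l : ℝ) + 1) ^ 2)) ≠ ∞ := by
    have h1 : Summable fun ρ : κ → ℕ => 4 * ∏ l, (1 / ((ρ l : ℝ) + 1) ^ 2) :=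
      summable_prod_sq.mul_left 4
    rw [← ENNReal.ofReal_tsum_of_nonneg (fun ρ => by
      have : 0 ≤ ∏ l, (1 / ((ρ l : ℝ) + 1) ^ 2) := Finset.prod_nonneg fun l _ => by positivity
      positivity) h1]
    exact ENNReal.ofReal_ne_top
  have hae : ∀ᵐ x ∂μ, ∑' ρ : κ → ℕ, ENNReal.ofReal ((avg (gr ρ) fun m => u m x) ^ 2) < ∞ := by
    refine ae_lt_top ?_ ?_
    · exact Measurable.tsum fun ρ => ((hmeas _).pow_const 2).ennreal_ofReal
    · rw [lintegral_tsum fun ρ => ((hmeas _).pow_const 2).ennreal_ofReal.aemeasurable]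
      exact ne_top_of_le_ne_top hsum (ENNReal.tsum_le_tsum hlint)
  filter_upwards [hae] with x hx
  have h1 := ENNReal.tendsto_cofinite_zero_of_tsum_ne_top hx.ne
  -- convergence along the grid
  have h2 : Tendsto (fun ρ : κ → ℕ => avg (gr ρ) fun m => u m x) cofinite (𝓝 0) := by
    have h3 : Tendsto (fun ρ : κ → ℕ => (avg (gr ρ) fun m => u m x) ^ 2) cofinite (𝓝 0) := by
      have := (ENNReal.tendsto_toReal ENNReal.zero_ne_top).comp h1
      simp only [ENNReal.toReal_zero] at this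
      refine this.congr fun ρ => ?_
      simp only [Function.comp]
      rw [ENNReal.toReal_ofReal (sq_nonneg _)]
    have h4 : Tendsto (fun ρ : κ → ℕ => √((avg (gr ρ) fun m => u m x) ^ 2)) cofinite (𝓝 0) := by
      have := (Real.continuous_sqrt.tendsto 0).comp h3
      rwa [Real.sqrt_zero] at this
    rw [tendsto_zero_iff_abs_tendsto_zero]
    refine h4.congr fun ρ => ?_
    rw [Real.sqrt_sq_eq_abs]
    rfl
  -- from the grid to all boxes
  have hfl : Tendsto (fun M : κ → ℕ => fun l => fl s (M l)) atTop atTop := by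
    rw [tendsto_atTop]
    intro b
    have : ∀ l, ∀ᶠ M : κ → ℕ in atTop, b l ≤ fl s (M l) := fun l =>
      ((tendsto_fl hs0).comp (tendsto_coord l)).eventually (eventually_ge_atTop (b l))
    filter_upwards [eventually_all.2 this] with M hM using hM
  have hcof : (atTop : Filter (κ → ℕ)) ≤ cofinite := by
    rw [le_cofinite_iff_eventually_ne]
    intro b
    obtain ⟨l⟩ := ‹Nonempty κ›
    filter_upwards [eventually_ge_atTop (fun _ => b l + 1)] with M hM h
    have := hM l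
    rw [h] at this
    simp at this
  have h3 : Tendsto (fun M : κ → ℕ => avg (gr fun l => fl s (M l)) fun m => u m x) atTop (𝓝 0) :=
    (h2.mono_left hcof).comp hfl
  have h4 : Tendsto (fun M : κ → ℕ => ∏ l, ((gr (fun l => fl s (M l)) l : ℕ) : ℝ) / M l) atTop
      (𝓝 1) := by
    have h5 : ∀ l, Tendsto (fun M : κ → ℕ => ((gr (fun l => fl s (M l)) l : ℕ) : ℝ) / M l) atTop
        (𝓝 1) := by
      intro l
      have h6 : Tendsto (fun r : ℕ => (((r : ℝ) + 1) / ((r : ℝ) + 2)) ^ s) atTop (𝓝 1) := by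
        have h7 : Tendsto (fun r : ℕ => 1 - 1 / (((r + 1 : ℕ) : ℝ) + 1)) atTop (𝓝 (1 - 0)) :=
          tendsto_const_nhds.sub
            ((tendsto_add_atTop_iff_nat 1).2 tendsto_one_div_add_atTop_nhds_zero_nat)
        have h8 := h7.pow s
        rw [sub_zero, one_pow] at h8
        refine h8.congr fun r => ?_
        congr 1
        push_cast
        field_simp
        ring
      have h7 := h6.comp ((tendsto_fl hs0).comp (tendsto_coord l))
      refine tendsto_of_tendsto_of_tendsto_of_le_of_le' h7 tendsto_const_nhds ?_ ?_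
      · filter_upwards [eventually_ge_atTop (fun _ => 1)] with M hM
        have hMl : 0 < M l := hM l
        simp only [Function.comp, hgr]
        push_cast
        rw [div_pow]
        have h9 : (M l : ℝ) ≤ ((fl s (M l) : ℝ) + 2) ^ s := by
          exact_mod_cast (lt_fl (m := M l) hs0).le
        have h10 : (0 : ℝ) < M l := by exact_mod_cast hMl
        exact div_le_div_of_nonneg_left (by positivity) h10 h9
      · filter_upwards [eventually_ge_atTop (fun _ => 1)] with M hM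
        have hMl : 0 < M l := hM l
        have h10 : (0 : ℝ) < M l := by exact_mod_cast hMl
        rw [div_le_one h10]
        simp only [hgr]
        exact_mod_cast fl_spec hMl
    have := tendsto_finsetProd (Finset.univ : Finset κ) fun l _ => h5 l
    simpa using this
  have h5 : Tendsto (fun M : κ → ℕ => 2 * (1 - ∏ l, ((gr (fun l => fl s (M l)) l : ℕ) : ℝ) / M l))
      atTop (𝓝 0) := by
    have := (tendsto_const_nhds (x := (1 : ℝ))).sub h4
    rw [sub_self] at this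
    have := this.const_mul 2
    rwa [mul_zero] at this
  have h6 : Tendsto (fun M : κ → ℕ => (avg M fun m => u m x) -
      avg (gr fun l => fl s (M l)) fun m => u m x) atTop (𝓝 0) := by
    refine squeeze_zero_norm' ?_ h5
    filter_upwards [eventually_ge_atTop (fun _ => 1)] with M hM
    rw [Real.norm_eq_abs]
    exact avg_diff M _ (hgr0 _) (fun l => fl_spec (hM l)) _ fun m => hu1 m x
  have h7 := h6.add h3
  simp only [sub_add_cancel, add_zero] at h7
  exact h7

end Pool.Agent.Lib.Pf720ae.Alg
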