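import Pool.Agent.Lib.Pf720ae.Alg.Trig

/-!
# Multiple ergodic averages for actions by automorphisms of compact abelian groups
-/

set_option autoImplicit false
set_option linter.unusedSectionVars false

open Finset MeasureTheory Filter Topology
open scoped ENNReal ComplexConjugate

namespace Pool.Agent.Lib.Pf720ae.Alg

variable {X : Type} [CommGroup X] [TopologicalSpace X] [IsTopologicalGroup X] [CompactSpace X]
  [T2Space X] [MeasurableSpace X] [BorelSpace X] {μ : Measure X} [IsProbabilityMeasure μ]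
  {d : ℕ} {κ : Type} [Fintype κ] [DecidableEq κ] {J : Type} [Fintype J] [DecidableEq J]

lemma toZ_eq_cz (m : κ → ℕ) : toZ m = cz m := rfl

lemma norm_prod_le_one {ι : Type*} (s : Finset ι) (f : ι → ℂ) (hf : ∀ i, ‖f i‖ ≤ 1) :
    ‖∏ i ∈ s, f i‖ ≤ 1 := by
  rw [norm_prod]
  exact Finset.prod_le_one (fun i _ => norm_nonneg _) fun i _ => hf i

/-- the mixed statement: some of the functions are characters, the others are real and bounded -/
theorem mixed [μ.WeaklyRegular]
    (hsep : ∀ x : X, x ≠ 1 → ∃ χ : X →ₜ* Circle, χ x ≠ 1)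
    (horth : ∀ χ : X →ₜ* Circle, χ ≠ 1 → ∫ x, ((χ x : Circle) : ℂ) ∂μ = 0)
    (W : (Fin d → ℤ) → (X →ₜ* X)) (hW0 : ∀ x, W 0 x = x)
    (hWadd : ∀ e e' x, W (e + e') x = W e (W e' x)) (hWmp : ∀ e, MeasurePreserving (W e) μ μ)
    (A : J → (κ → ℤ) →+ (Fin d → ℤ)) (s : Finset J) (g : J → X → ℂ)
    (hgs : ∀ j ∈ s, ∃ F : X → ℝ, Measurable F ∧ (∀ x, |F x| ≤ 1) ∧ ∀ x, g j x = F x)
    (hgc : ∀ j ∉ s, ∃ χ : X →ₜ* Circle, ∀ x, g j x = ((χ x : Circle) : ℂ)) :
    ∀ᵐ x ∂μ, Cvg (fun m : κ → ℕ => (∏ j, g j (W (A j (cz m)) x)).re) ∧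
      Cvg (fun m : κ → ℕ => (∏ j, g j (W (A j (cz m)) x)).im) := by
  induction s using Finset.induction_on generalizing g with
  | empty =>
    choose χ hχ using fun j => hgc j (Finset.notMem_empty j)
    have h1 := chars_ae (μ := μ) horth W hW0 hWadd A χ (T := Complex.re) (Or.inl rfl)
    have h2 := chars_ae (μ := μ) horth W hW0 hWadd A χ (T := Complex.im) (Or.inr rfl)
    filter_upwards [h1, h2] with x hx1 hx2
    constructor
    · refine hx1.congr fun m => ?_
      congr 1
      exact Finset.prod_congr rfl fun j _ => (hχ j _).symm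
    · refine hx2.congr fun m => ?_
      congr 1
      exact Finset.prod_congr rfl fun j _ => (hχ j _).symm
  | insert a s ha ih =>
    obtain ⟨F, hFm, hF1, hF⟩ := hgs a (Finset.mem_insert_self _ _)
    have hg1 : ∀ j x, ‖g j x‖ ≤ 1 := by
      intro j x
      by_cases hj : j ∈ insert a s
      · obtain ⟨F', -, hF'1, hF'⟩ := hgs j hj
        rw [hF', Complex.norm_real]
        exact hF'1 x
      · obtain ⟨χ, hχ⟩ := hgc j hj
        rw [hχ]
        exact (Circle.norm_coe _).le
    set Rm : X → (κ → ℕ) → ℂ := fun x m => ∏ j ∈ Finset.univ.erase a, g j (W (A j (cz m)) x) with hRm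
    have hR1 : ∀ x m, ‖Rm x m‖ ≤ 1 := fun x m => norm_prod_le_one _ _ fun j => hg1 j _
    -- replace the function `a` by a character
    have hchar : ∀ χ : X →ₜ* Circle, ∀ᵐ x ∂μ,
        Cvg (fun m : κ → ℕ => (((χ (W (A a (cz m)) x) : Circle) : ℂ) * Rm x m).re) ∧
        Cvg (fun m : κ → ℕ => (((χ (W (A a (cz m)) x) : Circle) : ℂ) * Rm x m).im) := by
      intro χ
      have h1 := ih (Function.update g a fun x => ((χ x : Circle) : ℂ)) (by
        intro j hj
        have hja : j ≠ a := fun h => ha (h ▸ hj)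
        rw [Function.update_of_ne hja]
        exact hgs j (Finset.mem_insert_of_mem hj)) (by
        intro j hj
        by_cases hja : j = a
        · subst hja
          exact ⟨χ, fun x => by rw [Function.update_self]⟩
        · rw [Function.update_of_ne hja]
          exact hgc j fun h => (Finset.mem_insert.1 h).elim hja hj)
      have h2 : ∀ x (m : κ → ℕ), ∏ j, (Function.update g a fun x => ((χ x : Circle) : ℂ)) j
          (W (A j (cz m)) x) = ((χ (W (A a (cz m)) x) : Circle) : ℂ) * Rm x m := by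
        intro x m
        rw [← Finset.mul_prod_erase Finset.univ _ (Finset.mem_univ a), Function.update_self]
        congr 1
        refine Finset.prod_congr rfl fun j hj => ?_
        rw [Function.update_of_ne (Finset.ne_of_mem_erase hj)]
      simp only [h2] at h1
      exact h1
    set Wt : X → Set ((κ → ℕ) → ℝ) := fun x => {fun m => (Rm x m).re, fun m => (Rm x m).im} with hWt
    have hWt1 : ∀ x, ∀ w ∈ Wt x, ∀ m, |w m| ≤ 1 := by
      rintro x w (rfl | rfl) m
      · exact (Complex.abs_re_le_norm _).trans (hR1 x m)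
      · exact (Complex.abs_im_le_norm _).trans (hR1 x m)
    set U : (κ → ℕ) → X → X := fun m x => W (A a (cz m)) x with hU
    have hU0 : ∀ x, U 0 x = x := by
      intro x
      have : cz (0 : κ → ℕ) = 0 := by funext l; simp [cz]
      simp only [hU]
      rw [this, map_zero, hW0]
    have hUadd : ∀ m n x, U (m + n) x = U m (U n x) := by
      intro m n x
      have : cz (m + n : κ → ℕ) = cz m + cz n := by funext l; simp [cz]
      simp only [hU]
      rw [this, map_add, hWadd]
    have hUmp : ∀ m, MeasurePreserving (U m) μ μ := fun m => hWmp _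
    have hgood : ∀ (b : Bool) (χ : X →ₜ* Circle), Cv μ U Wt (prt b χ) := by
      intro b χ
      filter_upwards [hchar χ, hchar χ⁻¹] with x h1 h2
      have hinv : ∀ y : X, ((χ⁻¹ y : Circle) : ℂ) = conj ((χ y : Circle) : ℂ) := coe_inv' χ
      simp only [hinv] at h2
      have e1 := (h1.1.add h2.1).smul (1 / 2)
      have e2 := (h2.1.add (h1.1.smul (-1))).smul (1 / 2)
      have e3 := (h1.2.add h2.2).smul (1 / 2)
      have e4 := (h1.2.add (h2.2.smul (-1))).smul (1 / 2)
      rintro w (rfl | rfl)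
      · cases b
        · refine e4.congr fun m => ?_
          rw [prt_false]
          simp only [Complex.mul_im, Complex.conj_re, Complex.conj_im, hU]
          ring
        · refine e1.congr fun m => ?_
          rw [prt_true]
          simp only [Complex.mul_re, Complex.conj_re, Complex.conj_im, hU]
          ring
      · cases b
        · refine e2.congr fun m => ?_
          rw [prt_false]
          simp only [Complex.mul_re, Complex.conj_re, Complex.conj_im, hU]
          ring
        · refine e3.congr fun m => ?_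
          rw [prt_true]
          simp only [Complex.mul_im, Complex.conj_re, Complex.conj_im, hU]
          ring
    have hFL : MemLp F 2 μ := MemLp.of_bound hFm.aestronglyMeasurable 1
      (Eventually.of_forall fun x => by simpa using hF1 x)
    have hmain : Cv μ U Wt F := by
      refine principle hU0 hUadd hUmp hWt1 (fun φ hφm hφL hφ => ?_) F hFL
      have hzero : φ =ᵐ[μ] 0 := by
        refine eq_zero_of_orth hsep hφL fun b χ => ?_
        refine hφ _ (prt b χ).continuous.measurable (fun x => ?_) (hgood b χ)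
        have hn : ‖((χ x : Circle) : ℂ)‖ = 1 := Circle.norm_coe _
        cases b
        · rw [prt_false]; exact (Complex.abs_im_le_norm _).trans hn.le
        · rw [prt_true]; exact (Complex.abs_re_le_norm _).trans hn.le
      exact Cv.congr hUmp hzero.symm Cv.zero
    have hprod : ∀ x (m : κ → ℕ), ∏ j, g j (W (A j (cz m)) x) =
        (F (W (A a (cz m)) x) : ℂ) * Rm x m := by
      intro x m
      rw [← Finset.mul_prod_erase Finset.univ _ (Finset.mem_univ a), hF]
    filter_upwards [hmain] with x hx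
    constructor
    · refine (hx _ (Set.mem_insert _ _)).congr fun m => ?_
      rw [hprod, Complex.re_ofReal_mul]
    · refine (hx _ (Set.mem_insert_of_mem _ rfl)).congr fun m => ?_
      rw [hprod, Complex.im_ofReal_mul]

/-- bounded real functions -/
theorem alg_real [μ.WeaklyRegular]
    (hsep : ∀ x : X, x ≠ 1 → ∃ χ : X →ₜ* Circle, χ x ≠ 1)
    (horth : ∀ χ : X →ₜ* Circle, χ ≠ 1 → ∫ x, ((χ x : Circle) : ℂ) ∂μ = 0)
    (W : (Fin d → ℤ) → (X →ₜ* X)) (hW0 : ∀ x, W 0 x = x)
    (hWadd : ∀ e e' x, W (e + e') x = W e (W e' x)) (hWmp : ∀ e, MeasurePreserving (W e) μ μ)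
    (A : J → (κ → ℤ) →+ (Fin d → ℤ)) (F : J → X → ℝ) (hFm : ∀ j, Measurable (F j))
    (hF1 : ∀ j x, |F j x| ≤ 1) :
    ∀ᵐ x ∂μ, Cvg fun m : κ → ℕ => ∏ j, F j (W (A j (cz m)) x) := by
  have h1 := mixed (μ := μ) hsep horth W hW0 hWadd hWmp A Finset.univ
    (fun j x => (F j x : ℂ)) (fun j _ => ⟨F j, hFm j, hF1 j, fun x => rfl⟩)
    (fun j hj => absurd (Finset.mem_univ j) hj)
  filter_upwards [h1] with x hx
  refine hx.1.congr fun m => ?_
  rw [← Complex.ofReal_prod, Complex.ofReal_re]

/-- nontrivial characters have zero integral -/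
lemma integral_char [μ.IsMulLeftInvariant] (χ : X →ₜ* Circle) (hχ : χ ≠ 1) :
    ∫ x, ((χ x : Circle) : ℂ) ∂μ = 0 := by
  obtain ⟨g, hg⟩ : ∃ g, χ g ≠ 1 := by
    by_contra h
    push Not at h
    exact hχ (ContinuousMonoidHom.ext h)
  have h1 := integral_mul_left_eq_self (μ := μ) (fun x => ((χ x : Circle) : ℂ)) g
  simp only [map_mul, Circle.coe_mul] at h1
  rw [integral_const_mul] at h1
  have h2 : (((χ g : Circle) : ℂ) - 1) * ∫ x, ((χ x : Circle) : ℂ) ∂μ = 0 := by
    rw [sub_mul, h1, one_mul, sub_self]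
  rcases mul_eq_zero.1 h2 with h | h
  · exfalso
    apply hg
    apply Circle.ext
    rw [Circle.coe_one]
    exact sub_eq_zero.1 h
  · exact h

/-- the group of continuous automorphisms -/
def autc (X : Type) [CommGroup X] [TopologicalSpace X] : Subgroup (Equiv.Perm X) where
  carrier := {σ | Continuous σ ∧ Continuous σ.symm ∧ ∀ x y, σ (x * y) = σ x * σ y}
  mul_mem' := by
    rintro σ τ ⟨h1, h2, h3⟩ ⟨h4, h5, h6⟩
    refine ⟨h1.comp h4, h5.comp h2, fun x y => ?_⟩
    change σ (τ (x * y)) = σ (τ x) * σ (τ y)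
    rw [h6, h3]
  one_mem' := ⟨continuous_id, continuous_id, fun _ _ => rfl⟩
  inv_mem' := by
    rintro σ ⟨h1, h2, h3⟩
    refine ⟨h2, h1, fun x y => ?_⟩
    change σ.symm (x * y) = σ.symm x * σ.symm y
    apply σ.injective
    rw [h3, σ.apply_symm_apply, σ.apply_symm_apply, σ.apply_symm_apply]

lemma pw_mem (T : Fin d → Equiv.Perm X) (hT : ∀ i, T i ∈ autc X) (e : Fin d → ℤ) :
    pw T e ∈ autc X := by
  unfold pw
  refine Subgroup.list_prod_mem _ fun σ hσ => ?_
  rw [List.mem_ofFn] at hσ
  obtain ⟨i, rfl⟩ := hσ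
  exact Subgroup.zpow_mem _ (hT i) _

/-- Automorphisms of compact abelian groups: bounded functions. -/
theorem thmAlg (d k n : ℕ) [μ.IsHaarMeasure] [μ.Regular]
    (hsep : ∀ x : X, x ≠ 1 → ∃ χ : X →ₜ* Circle, χ x ≠ 1)
    (T : Fin d → Equiv.Perm X) (hTc : ∀ i, Continuous (T i))
    (hTm : ∀ i x y, T i (x * y) = T i x * T i y) (hcomm : ∀ i i', T i * T i' = T i' * T i)
    (A : Fin n → Matrix (Fin d) (Fin k) ℤ) (c : Fin n → Fin d → ℤ)
    (f : Fin n → X → ℂ) (hf : ∀ j, MemLp (f j) ⊤ μ) :
    ∀ᵐ x ∂μ, ∃ L : ℂ, Tendsto (fun M : Fin k → ℕ => (∏ l, (M l : ℂ))⁻¹ *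
      ∑ m ∈ Fintype.piFinset (fun l => Finset.Icc 1 (M l)), ∏ j, f j
        (pw T (fun i => (A j).mulVec (fun l => (m l : ℤ)) i + c j i) x))
      atTop (𝓝 L) := by
  have hTaut : ∀ i, T i ∈ autc X := by
    intro i
    refine ⟨hTc i, ?_, hTm i⟩
    exact ((hTc i).homeoOfEquivCompactToT2).symm.continuous
  set W : (Fin d → ℤ) → (X →ₜ* X) := fun e =>
    { toFun := pw T e
      map_one' := by
        have h := (pw_mem T hTaut e).2.2 1 1
        rw [one_mul] at h
        exact (left_eq_mul.1 h)
      map_mul' := (pw_mem T hTaut e).2.2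
      continuous_toFun := (pw_mem T hTaut e).1 } with hW
  have hWapp : ∀ e x, W e x = pw T e x := fun _ _ => rfl
  have hWmp : ∀ e, MeasurePreserving (pw T e) μ μ := by
    intro e
    exact MonoidHom.measurePreserving (f := ((W e : X →ₜ* X) : X →* X)) (pw_mem T hTaut e).1
      (pw T e).surjective rfl
  set c' : Fin n → Fin d → ℤ := fun j => (A j).mulVec 1 + c j with hc'
  have h1 := lift_complex (μ := μ) (κ := Fin k)
    (fun j m => pw T ((A j).mulVec (toZ m) + c' j)) (fun j m => hWmp _) ?_ f hf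
  · filter_upwards [h1] with x hx
    obtain ⟨L, hL⟩ := hx
    refine ⟨L, hL.congr fun M => ?_⟩
    rw [sum_Icc_eq]
    congr 1
    refine Finset.sum_congr rfl fun m _ => Finset.prod_congr rfl fun j _ => ?_
    have e : ((A j).mulVec (toZ m) + c' j)
        = fun i => (A j).mulVec (fun l => (((m + 1) l : ℕ) : ℤ)) i + c j i := by
      funext i
      have e2 : (fun l => (((m + 1) l : ℕ) : ℤ)) = toZ m + 1 := by
        funext l
        simp [toZ]
      rw [e2, Matrix.mulVec_add]
      simp only [hc', Pi.add_apply]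
      ring
    rw [e]
  · intro F hFm hF1
    have h2 := alg_real (μ := μ) hsep (fun χ hχ => integral_char χ hχ) W
      (fun x => by rw [hWapp, pw_zero]; rfl)
      (fun e e' x => by rw [hWapp, hWapp, hWapp, pw_add T hcomm]; rfl) (fun e => hWmp e)
      (fun j => (A j).mulVecLin.toAddMonoidHom)
      (fun j x => F j (pw T (c' j) x))
      (fun j => (hFm j).comp (hWmp _).measurable) (fun j x => hF1 j _)
    filter_upwards [h2] with x hx
    refine hx.congr fun m => Finset.prod_congr rfl fun j _ => ?_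
    rw [add_comm ((A j).mulVec (toZ m)) (c' j), pw_add T hcomm (c' j)]
    rfl

end Pool.Agent.Lib.Pf720ae.Alg
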