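import Pool.Agent.Lib.Pf720ae.Alg.Seq

/-!
# The dual module of an action by automorphisms of a compact group
-/

set_option autoImplicit false
set_option linter.unusedSectionVars false

open Finset MeasureTheory Filter Topology
open scoped ENNReal ComplexConjugate

namespace Pool.Agent.Lib.Pf720ae.Alg

variable {X : Type} [CommGroup X] [TopologicalSpace X] {d : ℕ}

/-- the action on characters -/
noncomputable def dualHom
    (W : (Fin d → ℤ) → (X →ₜ* X)) (hW0 : ∀ x, W 0 x = x)
    (hWadd : ∀ e e' x, W (e + e') x = W e (W e' x)) :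
    Multiplicative (Fin d → ℤ) →* Module.End ℤ (Additive (X →ₜ* Circle)) where
  toFun g := AddMonoidHom.toIntLinearMap
    { toFun := fun χ => Additive.ofMul (χ.toMul.comp (W g.toAdd))
      map_zero' := rfl
      map_add' := fun _ _ => rfl }
  map_one' := by
    refine LinearMap.ext fun χ => ?_
    apply Additive.toMul.injective
    refine ContinuousMonoidHom.ext fun x => ?_
    change (χ.toMul (W (Multiplicative.toAdd 1) x) : Circle) = χ.toMul x
    rw [toAdd_one, hW0]
  map_mul' a b := by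
    refine LinearMap.ext fun χ => ?_
    apply Additive.toMul.injective
    refine ContinuousMonoidHom.ext fun x => ?_
    change (χ.toMul (W (Multiplicative.toAdd (a * b)) x) : Circle) =
      (χ.toMul (W b.toAdd (W a.toAdd x)) : Circle)
    rw [toAdd_mul, add_comm, hWadd]

lemma dualHom_apply (W : (Fin d → ℤ) → (X →ₜ* X)) (hW0 : ∀ x, W 0 x = x)
    (hWadd : ∀ e e' x, W (e + e') x = W e (W e' x)) (g : Multiplicative (Fin d → ℤ))
    (χ : Additive (X →ₜ* Circle)) (x : X) :
    (dualHom W hW0 hWadd g χ).toMul x = χ.toMul (W g.toAdd x) := rfl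

/-- evaluation of characters -/
noncomputable def evx (x : X) : Additive (X →ₜ* Circle) →+ Additive Circle where
  toFun χ := Additive.ofMul (χ.toMul x)
  map_zero' := rfl
  map_add' _ _ := rfl

/-- the ring `ℤ[ℤ^d]` -/
abbrev LR (d : ℕ) : Type := MonoidAlgebra ℤ (Multiplicative (Fin d → ℤ))

instance : IsNoetherianRing (LR d) := Algebra.FiniteType.isNoetherianRing ℤ (LR d)

/-- the homomorphism `m ↦ u ^ (A m)` -/
noncomputable def gam {κ : Type} [Fintype κ] (A : (κ → ℤ) →+ (Fin d → ℤ)) :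
    Multiplicative (κ → ℤ) →* (LR d)ˣ :=
  (MonoidAlgebra.of ℤ (Multiplicative (Fin d → ℤ))).toHomUnits.comp (AddMonoidHom.toMultiplicative A)

variable [IsTopologicalGroup X] [MeasurableSpace X] [BorelSpace X] {μ : Measure X}
  [IsProbabilityMeasure μ]

/-- Averages of products of characters converge. -/
theorem chars_ae {κ : Type} [Fintype κ] [DecidableEq κ] {J : Type} [Fintype J] [DecidableEq J]
    (horth : ∀ χ : X →ₜ* Circle, χ ≠ 1 → ∫ x, ((χ x : Circle) : ℂ) ∂μ = 0)
    (W : (Fin d → ℤ) → (X →ₜ* X)) (hW0 : ∀ x, W 0 x = x)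
    (hWadd : ∀ e e' x, W (e + e') x = W e (W e' x))
    (A : J → (κ → ℤ) →+ (Fin d → ℤ)) (χ : J → (X →ₜ* Circle))
    {T : ℂ → ℝ} (hT : T = Complex.re ∨ T = Complex.im) :
    ∀ᵐ x ∂μ, Cvg fun m : κ → ℕ => T (∏ j, ((χ j (W (A j (cz m)) x) : Circle) : ℂ)) := by
  let _ : Module (LR d) (Additive (X →ₜ* Circle)) :=
    Module.compHom _ (MonoidAlgebra.lift ℤ _ _ (dualHom W hW0 hWadd)).toRingHom
  have hsmul : ∀ (g : Multiplicative (Fin d → ℤ)) (ψ : Additive (X →ₜ* Circle)),
      (MonoidAlgebra.of ℤ (Multiplicative (Fin d → ℤ)) g : LR d) • ψ = dualHom W hW0 hWadd g ψ := by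
    intro g ψ
    change (MonoidAlgebra.lift ℤ _ _ (dualHom W hW0 hWadd))
      (MonoidAlgebra.of ℤ (Multiplicative (Fin d → ℤ)) g) ψ = _
    rw [MonoidAlgebra.lift_of]
  set S : Set (Additive (X →ₜ* Circle)) := Set.range fun j => Additive.ofMul (χ j) with hS
  set N := Submodule.span (LR d) S with hN
  have hnoeth : IsNoetherian (LR d) N :=
    isNoetherian_of_fg_of_noetherian N (Submodule.fg_span (Set.finite_range _))
  set χ' : J → N := fun j => ⟨Additive.ofMul (χ j), Submodule.subset_span ⟨j, rfl⟩⟩ with hχ'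
  set e : N → X → ℂ := fun ψ x => (((ψ : Additive (X →ₜ* Circle)).toMul x : Circle) : ℂ) with he
  have hem : ∀ ψ, Measurable (e ψ) := fun ψ =>
    (continuous_subtype_val.comp (map_continuous (ψ : Additive (X →ₜ* Circle)).toMul)).measurable
  have he1 : ∀ ψ x, ‖e ψ x‖ ≤ 1 := fun ψ x => by
    simp only [he]
    exact (Circle.norm_coe _).le
  have heorth : ∀ ψ ψ', ψ ≠ ψ' → ∫ x, e ψ x * conj (e ψ' x) ∂μ = 0 := by
    intro ψ ψ' hne
    have h1 := horth ((ψ : Additive (X →ₜ* Circle)).toMul / (ψ' : Additive (X →ₜ* Circle)).toMul) (by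
      intro h
      apply hne
      apply Subtype.ext
      exact Additive.toMul.injective (div_eq_one.1 h))
    refine Eq.trans (integral_congr_ae (Eventually.of_forall fun x => ?_)) h1
    simp only [he]
    change _ = (((ψ : Additive (X →ₜ* Circle)).toMul x / (ψ' : Additive (X →ₜ* Circle)).toMul x :
      Circle) : ℂ)
    rw [div_eq_mul_inv, Circle.coe_mul, Circle.coe_inv_eq_conj]
  have h1 := seq_ae (μ := μ) (κ := κ) (fun j => gam (A j)) hem he1 heorth χ' hT
  filter_upwards [h1] with x hx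
  refine hx.congr fun m => ?_
  congr 1
  simp only [he, Fs]
  have h2 : evx x (((∑ j, (gam (A j) (Multiplicative.ofAdd (cz m)) : (LR d)ˣ) • χ' j : N) :
      Additive (X →ₜ* Circle))) = ∑ j, Additive.ofMul (χ j (W (A j (cz m)) x)) := by
    rw [Submodule.coe_sum, map_sum]
    refine Finset.sum_congr rfl fun j _ => ?_
    have h3 : (((gam (A j) (Multiplicative.ofAdd (cz m)) : (LR d)ˣ) • χ' j : N) :
        Additive (X →ₜ* Circle)) = dualHom W hW0 hWadd (Multiplicative.ofAdd (A j (cz m)))
          (Additive.ofMul (χ j)) := by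
      rw [← hsmul]
      rfl
    rw [h3]
    rfl
  have h3 := congrArg Additive.toMul h2
  rw [toMul_sum] at h3
  have h4 := congrArg (fun z : Circle => Circle.coeHom z) h3
  refine Eq.trans h4 ?_
  change Circle.coeHom (∏ j, χ j (W (A j (cz m)) x)) = ∏ j, Circle.coeHom (χ j (W (A j (cz m)) x))
  rw [map_prod]

end Pool.Agent.Lib.Pf720ae.Alg
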