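import Pool.Agent.Lib.Pf720ae.Alg.Cube

/-!
# Zeros of exponential sums in coprimary modules

If an exponential sum `∑ i, l_i ^ t • φ_i` with values in a module on which every scalar acts
injectively or nilpotently vanishes on a Hilbert cube, then it vanishes identically, after
replacing the `l_i` by suitable powers.
-/

set_option autoImplicit false

open Finset

namespace Pool.Agent.Lib.Pf720ae.Alg

variable {R : Type*} [CommRing R] {P : Type*} [AddCommGroup P] [Module R P]

/-- `r` acts injectively on `P` -/
def Inj (P : Type*) [AddCommGroup P] [Module R P] (r : R) : Prop := ∀ x : P, r • x = 0 → x = 0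

/-- `r` acts nilpotently on `P` -/
def Nil (P : Type*) [AddCommGroup P] [Module R P] (r : R) : Prop :=
  ∃ e : ℕ, ∀ x : P, r ^ e • x = 0

lemma Nil.mul {r : R} (h : Nil P r) (s : R) : Nil P (r * s) := by
  obtain ⟨e, he⟩ := h
  refine ⟨e, fun x => ?_⟩
  rw [mul_pow, mul_comm, mul_smul, he, smul_zero]

/-- the difference operator -/
def dl (R : Type*) [CommRing R] (P : Type*) [AddCommGroup P] [Module R P] :
    (ℤ → P) →ₗ[R] (ℤ → P) where
  toFun f := fun t => f (t + 1) - f t
  map_add' f g := by
    funext t
    simp only [Pi.add_apply]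
    abel
  map_smul' c f := by
    funext t
    simp only [Pi.smul_apply, RingHom.id_apply, smul_sub]

lemma dl_apply (f : ℤ → P) (t : ℤ) : dl R P f t = f (t + 1) - f t := rfl

lemma dl_eq_zero {f : ℤ → P} (h : dl R P f = 0) (t : ℤ) : f t = f 0 := by
  have h1 : ∀ t, f (t + 1) = f t := fun t => by
    have := congrFun h t
    rw [dl_apply] at this
    exact sub_eq_zero.1 this
  induction t using Int.induction_on with
  | zero => rfl
  | succ n ih => rw [h1, ih]
  | pred n ih =>
    rw [← h1, ← ih]
    congr 1
    ring

lemma dl_geom (v : Rˣ) (φ : P) (e : ℕ) :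
    (dl R P ^ e) (fun t : ℤ => (v ^ t : Rˣ) • φ) =
      fun t : ℤ => (v ^ t : Rˣ) • (((v : R) - 1) ^ e • φ) := by
  induction e with
  | zero => simp
  | succ e ih =>
    rw [pow_succ', Module.End.mul_apply, ih]
    funext t
    rw [dl_apply, zpow_add_one, mul_smul, ← smul_sub, pow_succ', mul_smul (((v : R) - 1)),
      sub_smul, one_smul]
    rfl

lemma dl_pow_le {f : ℤ → P} {e e' : ℕ} (h : (dl R P ^ e) f = 0) (hle : e ≤ e') :
    (dl R P ^ e') f = 0 := by
  obtain ⟨k, rfl⟩ := Nat.exists_eq_add_of_le hle
  rw [add_comm, pow_add, Module.End.mul_apply, h, map_zero]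

/-- a periodic polynomial sequence is constant when the integers act injectively -/
lemma const_of_periodic (hb : ∀ b : ℕ, 0 < b → Inj P (b : R)) {d : ℕ} (hd : 0 < d)
    {e : ℕ} {f : ℤ → P} (he : (dl R P ^ e) f = 0) (hper : ∀ t : ℤ, f (t + d) = f t) (t : ℤ) :
    f t = f 0 := by
  induction e with
  | zero =>
    have : f = 0 := by simpa using he
    rw [this]
    rfl
  | succ e ih =>
    rcases Nat.eq_zero_or_pos e with h0 | h0
    · subst h0
      exact dl_eq_zero (R := R) (by simpa using he) t
    · apply ih
      obtain ⟨e', rfl⟩ : ∃ e', e = e' + 1 := ⟨e - 1, by omega⟩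
      set K := (dl R P ^ e') f with hK
      have hKper : ∀ m : ℕ, ∀ t : ℤ, ((dl R P ^ m) f) (t + d) = ((dl R P ^ m) f) t := by
        intro m
        induction m with
        | zero => intro t; simpa using hper t
        | succ m ihm =>
          intro t
          rw [pow_succ', Module.End.mul_apply, dl_apply, dl_apply, ← ihm t, ← ihm (t + 1)]
          have : t + (d : ℤ) + 1 = t + 1 + d := by ring
          rw [this]
      have h1 : dl R P (dl R P K) = 0 := by
        rw [pow_succ', Module.End.mul_apply, pow_succ', Module.End.mul_apply] at he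
        exact he
      have h2 : ∀ t, K (t + 1) - K t = K 1 - K 0 := fun t => by
        have := dl_eq_zero (R := R) h1 t
        rw [dl_apply, dl_apply] at this
        simpa using this
      have h3 : ∀ n : ℕ, K n = K 0 + n • (K 1 - K 0) := by
        intro n
        induction n with
        | zero => simp
        | succ n ihn =>
          have := h2 n
          rw [sub_eq_iff_eq_add] at this
          push_cast
          rw [this, ihn, succ_nsmul]
          abel
      have h4 : (d : ℕ) • (K 1 - K 0) = 0 := by
        have h5 := hKper e' 0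
        rw [← hK, zero_add, h3 d] at h5
        simpa using h5
      have h5 : K 1 - K 0 = 0 := by
        refine hb d hd _ ?_
        rw [Nat.cast_smul_eq_nsmul]
        exact h4
      rw [pow_succ', Module.End.mul_apply, ← hK]
      funext t
      rw [dl_apply, h2 t, h5]
      rfl

/-- An exponential sum that vanishes on a cube vanishes, for roots in general position. -/
theorem zero_of_cube {I : Type*} [DecidableEq I] (l : I → Rˣ) (s : Finset I)
    (hs : ∀ i ∈ s, ∀ j ∈ s, i ≠ j → (∀ d : ℕ, 0 < d → Inj P ((l i : R) ^ d - (l j : R) ^ d)) ∨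
      (Nil P ((l i : R) - l j) ∧ ∀ b : ℕ, 0 < b → Inj P (b : R)))
    (φ : I → P) (hc : HasCube s.card {t : ℤ | ∑ i ∈ s, (l i ^ t : Rˣ) • φ i = 0}) (t : ℤ) :
    ∑ i ∈ s, (l i ^ t : Rˣ) • φ i = 0 := by
  induction hn : s.card generalizing s φ t with
  | zero =>
    rw [Finset.card_eq_zero] at hn
    rw [hn, Finset.sum_empty]
  | succ D ih =>
    rw [hn] at hc
    obtain ⟨d, hd, hc⟩ := hc
    have key : ∀ i ∈ s, ∀ t : ℤ, ∑ j ∈ s, (l j ^ (t + d) : Rˣ) • φ j =
        ((l i : R) ^ d) • ∑ j ∈ s, (l j ^ t : Rˣ) • φ j := by
      intro i hi t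
      have hcard : (s.erase i).card = D := by rw [Finset.card_erase_of_mem hi, hn]; rfl
      have hform : ∀ t : ℤ, ∑ j ∈ s.erase i, (l j ^ t : Rˣ) • (((l j : R) ^ d - (l i : R) ^ d) • φ j)
          = ∑ j ∈ s, (l j ^ (t + d) : Rˣ) • φ j -
            ((l i : R) ^ d) • ∑ j ∈ s, (l j ^ t : Rˣ) • φ j := by
        intro t
        rw [Finset.smul_sum, ← Finset.sum_sub_distrib, ← Finset.add_sum_erase s _ hi]
        have h0 : ∀ j, (l j ^ (t + d) : Rˣ) • φ j - ((l i : R) ^ d) • ((l j ^ t : Rˣ) • φ j) =
            (l j ^ t : Rˣ) • (((l j : R) ^ d - (l i : R) ^ d) • φ j) := by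
          intro j
          rw [sub_smul, smul_sub, zpow_add, mul_smul, zpow_natCast]
          congr 1
          rw [smul_comm]
        rw [h0 i, sub_self, zero_smul, smul_zero, zero_add]
        exact Finset.sum_congr rfl fun j _ => (h0 j).symm
      have h1 := ih (s.erase i)
        (fun a ha b hb hab => hs a (Finset.mem_of_mem_erase ha) b (Finset.mem_of_mem_erase hb) hab)
        (fun j => ((l j : R) ^ d - (l i : R) ^ d) • φ j) ?_ t hcard
      · rw [hform, sub_eq_zero] at h1
        exact h1
      · rw [hcard]
        refine hc.mono ?_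
        rintro t ⟨ht1, ht2⟩
        simp only [Set.mem_ofPred_eq] at ht1 ht2 ⊢
        rw [hform, ht1, ht2, smul_zero, sub_zero]
    obtain ⟨a, ha, ha'⟩ := hc.nonempty
    simp only [Set.mem_ofPred_eq] at ha ha'
    obtain ⟨i, hi⟩ : s.Nonempty := by rw [← Finset.card_pos, hn]; exact Nat.succ_pos _
    by_cases hex : ∃ j ∈ s, j ≠ i ∧ ∀ d : ℕ, 0 < d → Inj P ((l i : R) ^ d - (l j : R) ^ d)
    · obtain ⟨j, hj, -, hinj⟩ := hex
      refine hinj d hd _ ?_
      rw [sub_smul, ← key i hi, ← key j hj, sub_self]
    · push Not at hex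
      by_cases hone : ∀ j ∈ s, j = i
      · have hs1 : s = {i} := by
          ext j
          rw [Finset.mem_singleton]
          exact ⟨hone j, fun h => h ▸ hi⟩
        rw [hs1, Finset.sum_singleton] at ha ⊢
        have h0 : φ i = 0 := by
          have := congrArg (fun y => ((l i ^ a : Rˣ)⁻¹) • y) ha
          simpa [smul_smul] using this
        rw [h0, smul_zero]
      · push Not at hone
        obtain ⟨j₀, hj₀, hj₀i⟩ := hone
        have hnil : ∀ j ∈ s, j ≠ i → Nil P ((l i : R) - l j) ∧ ∀ b : ℕ, 0 < b → Inj P (b : R) := by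
          intro j hj hji
          rcases hs i hi j hj (Ne.symm hji) with h | h
          · obtain ⟨d', hd', hni⟩ := hex j hj hji
            exact absurd (h d' hd') hni
          · exact h
        have hb := (hnil j₀ hj₀ hj₀i).2
        -- the normalised sequence
        set H : ℤ → P := fun t => (l i ^ (-t) : Rˣ) • ∑ j ∈ s, (l j ^ t : Rˣ) • φ j with hH
        have hHper : ∀ t : ℤ, H (t + d) = H t := by
          intro t
          simp only [hH]
          rw [key i hi t, neg_add, zpow_add, mul_smul]
          congr 1
          have : ((l i : R) ^ d) • (∑ j ∈ s, (l j ^ t : Rˣ) • φ j) =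
              (l i ^ (d : ℤ) : Rˣ) • (∑ j ∈ s, (l j ^ t : Rˣ) • φ j) := by
            rw [zpow_natCast]; rfl
          rw [this, smul_smul, ← zpow_add, neg_add_cancel, zpow_zero, one_smul]
        have hHsum : H = ∑ j ∈ s, fun t : ℤ => ((l j * (l i)⁻¹) ^ t : Rˣ) • φ j := by
          funext t
          simp only [hH]
          rw [Finset.sum_apply, Finset.smul_sum]
          refine Finset.sum_congr rfl fun j _ => ?_
          rw [smul_smul, mul_zpow, inv_zpow, zpow_neg, mul_comm]
        have hkill : ∃ e : ℕ, (dl R P ^ e) H = 0 := by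
          have h1 : ∀ j ∈ s, ∃ e : ℕ, ∀ e' : ℕ, e ≤ e' →
              (dl R P ^ e') (fun t : ℤ => ((l j * (l i)⁻¹) ^ t : Rˣ) • φ j) = 0 := by
            intro j hj
            have h2 : Nil P (((l j * (l i)⁻¹ : Rˣ) : R) - 1) := by
              by_cases hji : j = i
              · subst hji
                refine ⟨1, fun x => ?_⟩
                simp
              · have h3 := (hnil j hj hji).1
                have h4 : (((l j * (l i)⁻¹ : Rˣ) : R) - 1) =
                    ((l i : R) - l j) * (-((l i)⁻¹ : Rˣ) : R) := by
                  push_cast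
                  rw [mul_neg, sub_mul, Units.mul_inv]
                  ring
                rw [h4]
                exact h3.mul _
            obtain ⟨e, he⟩ := h2
            refine ⟨e, fun e' he' => dl_pow_le (e := e) ?_ he'⟩
            rw [dl_geom]
            funext t
            rw [he, smul_zero]
            rfl
          choose! e he using h1
          refine ⟨s.sup e, ?_⟩
          rw [hHsum, map_sum]
          exact Finset.sum_eq_zero fun j hj => he j hj _ (Finset.le_sup hj)
        obtain ⟨e, he⟩ := hkill
        have hconst : ∀ t, H t = H 0 := fun t => const_of_periodic hb hd he hHper t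
        have hHa : H a = 0 := by
          simp only [hH]
          rw [ha, smul_zero]
        have hHt : H t = 0 := by rw [hconst t, ← hconst a, hHa]
        have := congrArg (fun y => (l i ^ t : Rˣ) • y) hHt
        simp only [hH, smul_zero] at this
        rwa [smul_smul, ← zpow_add, add_neg_cancel, zpow_zero, one_smul] at this

end Pool.Agent.Lib.Pf720ae.Alg
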