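import Mathlib

/-!
# Hilbert cubes

Sets of integers without Hilbert cubes of a given dimension have few elements in intervals.
-/

set_option autoImplicit false

open Finset

namespace Pool.Agent.Lib.Pf720ae.Alg

/-- `HasCube D A`: the set `A` contains a Hilbert cube of dimension `D` with positive sides. -/
def HasCube : ℕ → Set ℤ → Prop
  | 0, A => A.Nonempty
  | D + 1, A => ∃ d : ℕ, 0 < d ∧ HasCube D {t | t ∈ A ∧ t + d ∈ A}

lemma HasCube.mono {D : ℕ} {A B : Set ℤ} (h : HasCube D A) (hAB : A ⊆ B) : HasCube D B := by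
  induction D generalizing A B with
  | zero => exact Set.Nonempty.mono hAB h
  | succ D ih =>
    obtain ⟨d, hd, h⟩ := h
    exact ⟨d, hd, ih h fun t ht => ⟨hAB ht.1, hAB ht.2⟩⟩

lemma HasCube.nonempty {D : ℕ} {A : Set ℤ} (h : HasCube D A) : A.Nonempty := by
  induction D generalizing A with
  | zero => exact h
  | succ D ih =>
    obtain ⟨d, hd, h⟩ := h
    exact (ih h).mono fun t ht => ht.1

lemma HasCube.of_succ {D : ℕ} {A : Set ℤ} (h : HasCube (D + 1) A) : HasCube D A := by
  obtain ⟨d, _, h⟩ := h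
  exact h.mono fun t ht => ht.1

lemma HasCube.of_le {D E : ℕ} (hDE : D ≤ E) {A : Set ℤ} (h : HasCube E A) : HasCube D A := by
  induction E, hDE using Nat.le_induction with
  | base => exact h
  | succ n _ ih => exact ih h.of_succ

/-- cubes are preserved by dilations -/
lemma HasCube.dilate {D : ℕ} {A : Set ℤ} {q : ℕ} (hq : 0 < q)
    (h : HasCube D {t | (q : ℤ) * t ∈ A}) : HasCube D A := by
  induction D generalizing A with
  | zero =>
    obtain ⟨t, ht⟩ := h
    exact ⟨_, ht⟩
  | succ D ih =>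
    obtain ⟨d, hd, h⟩ := h
    refine ⟨q * d, Nat.mul_pos hq hd, ih (h.mono fun t ht => ⟨ht.1, ?_⟩)⟩
    have := ht.2
    simp only [Set.mem_ofPred_eq] at this
    push_cast
    rwa [← mul_add]

/-- the pairs of a finite set of integers in an interval of length `N` have at most `N`
differences -/
lemma card_pairs_le (s : Finset ℤ) (x : ℤ) (N : ℕ) (hs : ∀ t ∈ s, x ≤ t ∧ t < x + N) :
    s.card * s.card - s.card ≤ ∑ d ∈ Finset.Ico 1 N, 2 * (s.filter fun t => t + (d : ℤ) ∈ s).card := by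
  rw [← Finset.offDiag_card]
  have hmap : ∀ p ∈ s.offDiag, (p.2 - p.1).natAbs ∈ Finset.Ico 1 N := by
    intro p hp
    rw [Finset.mem_offDiag] at hp
    have h1 := hs _ hp.1
    have h2 := hs _ hp.2.1
    rw [Finset.mem_Ico]
    have h3 : p.2 - p.1 ≠ 0 := sub_ne_zero.2 (Ne.symm hp.2.2)
    omega
  rw [Finset.card_eq_sum_card_fiberwise hmap]
  refine Finset.sum_le_sum fun d hd => ?_
  have hd1 : 1 ≤ d := (Finset.mem_Ico.1 hd).1
  have hsub : (s.offDiag.filter fun p => (p.2 - p.1).natAbs = d) ⊆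
      ((s.filter fun t => t + (d : ℤ) ∈ s).image fun t => (t, t + (d : ℤ))) ∪
      ((s.filter fun t => t + (d : ℤ) ∈ s).image fun t => (t + (d : ℤ), t)) := by
    intro p hp
    rw [Finset.mem_filter, Finset.mem_offDiag] at hp
    obtain ⟨⟨h1, h2, h3⟩, h4⟩ := hp
    rw [Finset.mem_union, Finset.mem_image, Finset.mem_image]
    rcases Int.natAbs_eq_iff.1 h4 with h | h
    · left
      refine ⟨p.1, ?_, ?_⟩
      · rw [Finset.mem_filter]
        refine ⟨h1, ?_⟩
        have : p.1 + (d : ℤ) = p.2 := by omega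
        rwa [this]
      · ext <;> simp <;> omega
    · right
      refine ⟨p.2, ?_, ?_⟩
      · rw [Finset.mem_filter]
        refine ⟨h2, ?_⟩
        have : p.2 + (d : ℤ) = p.1 := by omega
        rwa [this]
      · ext <;> simp <;> omega
  refine (Finset.card_le_card hsub).trans ((Finset.card_union_le _ _).trans ?_)
  rw [two_mul]
  exact add_le_add Finset.card_image_le Finset.card_image_le

/-- sets without cubes of dimension `D + 1` have few elements in intervals -/
theorem card_le_of_not_hasCube (D : ℕ) {A : Set ℤ} (hA : ¬ HasCube (D + 1) A) (x : ℤ) (N : ℕ)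
    (s : Finset ℤ) (hsA : ∀ t ∈ s, t ∈ A) (hs : ∀ t ∈ s, x ≤ t ∧ t < x + N) :
    (s.card : ℝ) ≤ 4 * (N : ℝ) ^ (1 - (1 / 2 : ℝ) ^ D) := by
  rcases Nat.eq_zero_or_pos N with hN | hN
  · have : s = ∅ := by
      rw [Finset.eq_empty_iff_forall_notMem]
      intro t ht
      have := hs t ht
      subst hN
      simp at this
      omega
    rw [this]
    simp only [card_empty, Nat.cast_zero]
    positivity
  have hN1 : (1 : ℝ) ≤ N := by exact_mod_cast hN
  induction D generalizing A s with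
  | zero =>
    have : s.card ≤ 1 := by
      rw [Finset.card_le_one]
      intro a ha b hb
      by_contra hab
      apply hA
      rcases lt_or_gt_of_ne hab with h | h
      · refine ⟨(b - a).toNat, by omega, ⟨a, hsA a ha, ?_⟩⟩
        have : a + ((b - a).toNat : ℤ) = b := by omega
        rw [this]
        exact hsA b hb
      · refine ⟨(a - b).toNat, by omega, ⟨b, hsA b hb, ?_⟩⟩
        have : b + ((a - b).toNat : ℤ) = a := by omega
        rw [this]
        exact hsA a ha
    have h1 : (s.card : ℝ) ≤ 1 := by exact_mod_cast this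
    simp
    linarith
  | succ D ih =>
    set δ : ℝ := (1 / 2 : ℝ) ^ (D + 1) with hδ
    have hδ2 : (1 / 2 : ℝ) ^ D = 2 * δ := by rw [hδ, pow_succ]; ring
    have hδ1 : δ ≤ 1 := pow_le_one₀ (by norm_num) (by norm_num)
    have hpow1 : (1 : ℝ) ≤ (N : ℝ) ^ (1 - δ) := Real.one_le_rpow hN1 (by linarith)
    rcases Nat.lt_or_ge s.card 2 with hc | hc
    · have h1 : (s.card : ℝ) ≤ 1 := by exact_mod_cast Nat.lt_succ_iff.1 hc
      linarith
    have hcR : (2 : ℝ) ≤ s.card := by exact_mod_cast hc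
    have hfib : ∀ d ∈ Finset.Ico 1 N,
        ((s.filter fun t => t + (d : ℤ) ∈ s).card : ℝ) ≤ 4 * (N : ℝ) ^ (1 - (1 / 2 : ℝ) ^ D) := by
      intro d hd
      refine ih (A := {t | t ∈ A ∧ t + d ∈ A}) ?_ _ ?_ ?_
      · intro hcube
        exact hA ⟨d, (Finset.mem_Ico.1 hd).1, hcube⟩
      · intro t ht
        rw [Finset.mem_filter] at ht
        exact ⟨hsA t ht.1, hsA _ ht.2⟩
      · intro t ht
        rw [Finset.mem_filter] at ht
        exact hs t ht.1
    have h1 := card_pairs_le s x N hs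
    have h2 : ((s.card * s.card - s.card : ℕ) : ℝ) ≤
        N * (2 * (4 * (N : ℝ) ^ (1 - (1 / 2 : ℝ) ^ D))) := by
      calc ((s.card * s.card - s.card : ℕ) : ℝ)
          ≤ ((∑ d ∈ Finset.Ico 1 N, 2 * (s.filter fun t => t + (d : ℤ) ∈ s).card : ℕ) : ℝ) := by
            exact_mod_cast h1
        _ = ∑ d ∈ Finset.Ico 1 N, 2 * ((s.filter fun t => t + (d : ℤ) ∈ s).card : ℝ) := by
            push_cast; rfl
        _ ≤ ∑ d ∈ Finset.Ico 1 N, 2 * (4 * (N : ℝ) ^ (1 - (1 / 2 : ℝ) ^ D)) := by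
            refine Finset.sum_le_sum fun d hd => ?_
            have := hfib d hd
            linarith
        _ = ((N - 1 : ℕ) : ℝ) * (2 * (4 * (N : ℝ) ^ (1 - (1 / 2 : ℝ) ^ D))) := by
            rw [Finset.sum_const, Nat.card_Ico, nsmul_eq_mul]
        _ ≤ _ := by
            gcongr
            exact_mod_cast Nat.sub_le N 1
    have h3 : ((s.card * s.card - s.card : ℕ) : ℝ) = (s.card : ℝ) * s.card - s.card := by
      rw [Nat.cast_sub (Nat.le_mul_of_pos_left _ (by omega))]
      push_cast; ring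
    rw [h3, hδ2] at h2
    have h4 : (s.card : ℝ) ^ 2 ≤ (4 * (N : ℝ) ^ (1 - δ)) ^ 2 := by
      have h5 : (N : ℝ) * (N : ℝ) ^ (1 - 2 * δ) = ((N : ℝ) ^ (1 - δ)) ^ 2 := by
        rw [← Real.rpow_natCast ((N : ℝ) ^ (1 - δ)) 2, ← Real.rpow_mul (by positivity)]
        nth_rw 1 [← Real.rpow_one (N : ℝ)]
        rw [← Real.rpow_add (by positivity)]
        congr 1
        push_cast; ring
      have h6 : (s.card : ℝ) ^ 2 / 2 ≤ (s.card : ℝ) * s.card - s.card := by nlinarith
      calc (s.card : ℝ) ^ 2 ≤ 2 * (N * (2 * (4 * (N : ℝ) ^ (1 - 2 * δ)))) := by linarith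
        _ = 16 * (N * (N : ℝ) ^ (1 - 2 * δ)) := by ring
        _ = (4 * (N : ℝ) ^ (1 - δ)) ^ 2 := by rw [h5]; ring
    exact le_of_sq_le_sq h4 (by positivity)

end Pool.Agent.Lib.Pf720ae.Alg
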