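import Mathlib

/-!
# Characters separate the points of a compact abelian group

The proof goes through the commutative C*-algebra (bicommutant) generated by a strongly
continuous unitary representation and the Gelfand transform.
-/

set_option autoImplicit false
set_option linter.unusedSectionVars false

open MeasureTheory Filter Topology
open scoped ENNReal ComplexConjugate InnerProductSpace

namespace Pool.Agent.Lib.Pf720ae.Alg

section Abstract

variable {G : Type} [CommGroup G] [TopologicalSpace G] [IsTopologicalGroup G] [CompactSpace G]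
  [MeasurableSpace G] [BorelSpace G] {μ : Measure G} [IsFiniteMeasure μ]
  {H : Type} [NormedAddCommGroup H] [InnerProductSpace ℂ H] [CompleteSpace H]

/-- the bicommutant of a set of operators -/
noncomputable def bic (S : Set (H →L[ℂ] H)) : StarSubalgebra ℂ (H →L[ℂ] H) :=
  StarSubalgebra.centralizer ℂ (Set.centralizer (S ∪ star S))

lemma mem_bic {S : Set (H →L[ℂ] H)} {a : H →L[ℂ] H} :
    a ∈ bic S ↔ ∀ b ∈ Set.centralizer (S ∪ star S), b * a = a * b := by
  have h1 : star (Set.centralizer (S ∪ star S)) = Set.centralizer (S ∪ star S) := by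
    ext b
    rw [Set.mem_star]
    constructor
    · intro h
      have := Set.star_mem_centralizer h
      rwa [star_star] at this
    · intro h
      exact Set.star_mem_centralizer h
  have h2 : a ∈ bic S ↔ a ∈ Set.centralizer (Set.centralizer (S ∪ star S) ∪
      star (Set.centralizer (S ∪ star S))) := Iff.rfl
  rw [h2, h1, Set.union_self, Set.mem_centralizer_iff]

lemma bic_closed (S : Set (H →L[ℂ] H)) : IsClosed (bic S : Set (H →L[ℂ] H)) :=
  Set.isClosed_centralizer _

lemma bic_comm {S : Set (H →L[ℂ] H)}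
    (hS : ∀ a ∈ S ∪ star S, ∀ b ∈ S ∪ star S, a * b = b * a) (a b : bic S) : a * b = b * a := by
  apply Subtype.ext
  show (a : H →L[ℂ] H) * b = b * a
  have ha := mem_bic.1 a.2
  have hb := mem_bic.1 b.2
  refine hb _ ?_
  rw [Set.mem_centralizer_iff]
  intro c hc
  refine ha c ?_
  rw [Set.mem_centralizer_iff]
  intro e he
  exact hS e he c hc

/-- the commutative C*-algebra structure -/
@[reducible] noncomputable def bicInst {S : Set (H →L[ℂ] H)}
    (hS : ∀ a ∈ S ∪ star S, ∀ b ∈ S ∪ star S, a * b = b * a) : CommCStarAlgebra (bic S) :=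
  letI : CStarAlgebra (H →L[ℂ] H) := {}
  haveI : IsClosed (bic S : Set (H →L[ℂ] H)) := bic_closed S
  { StarSubalgebra.cstarAlgebra (bic S) with mul_comm := bic_comm hS }

/-- the integrated operator `∫ f(g) U(g) dμ(g)` -/
noncomputable def Kop (μ : Measure G) [IsFiniteMeasure μ] (U : G → (H →L[ℂ] H))
    (hU : ∀ g φ, ‖U g φ‖ = ‖φ‖) (hc : ∀ φ, Continuous fun g => U g φ) (f : C(G, ℂ)) :
    H →L[ℂ] H :=
  LinearMap.mkContinuous
    { toFun := fun φ => ∫ g, f g • U g φ ∂μ
      map_add' := by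
        intro φ ψ
        have h1 : ∀ φ, Integrable (fun g => f g • U g φ) μ := fun φ =>
          (f.continuous.smul (hc φ)).integrable_of_hasCompactSupport
            (HasCompactSupport.of_compactSpace _)
        rw [← integral_add (h1 φ) (h1 ψ)]
        refine integral_congr_ae (Eventually.of_forall fun g => ?_)
        simp [smul_add]
      map_smul' := by
        intro c φ
        simp only [RingHom.id_apply]
        rw [← integral_smul]
        refine integral_congr_ae (Eventually.of_forall fun g => ?_)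
        simp only [map_smul]
        rw [smul_comm] }
    (‖f‖ * μ.real Set.univ) (by
      intro φ
      simp only [LinearMap.coe_mk, AddHom.coe_mk]
      calc ‖∫ g, f g • U g φ ∂μ‖ ≤ (‖f‖ * ‖φ‖) * μ.real Set.univ := by
            refine norm_integral_le_of_norm_le_const (Eventually.of_forall fun g => ?_)
            rw [norm_smul, hU]
            exact mul_le_mul_of_nonneg_right (f.norm_coe_le_norm g) (norm_nonneg _)
        _ = _ := by ring)

lemma integ (U : G → (H →L[ℂ] H)) (hc : ∀ φ, Continuous fun g => U g φ) (f : C(G, ℂ)) (φ : H) :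
    Integrable (fun g => f g • U g φ) μ :=
  (f.continuous.smul (hc φ)).integrable_of_hasCompactSupport (HasCompactSupport.of_compactSpace _)

lemma Kop_apply (U : G → (H →L[ℂ] H))
    (hU : ∀ g φ, ‖U g φ‖ = ‖φ‖) (hc : ∀ φ, Continuous fun g => U g φ) (f : C(G, ℂ)) (φ : H) :
    Kop μ U hU hc f φ = ∫ g, f g • U g φ ∂μ := rfl

lemma Kop_sub (U : G → (H →L[ℂ] H))
    (hU : ∀ g φ, ‖U g φ‖ = ‖φ‖) (hc : ∀ φ, Continuous fun g => U g φ) (f f' : C(G, ℂ)) :
    Kop μ U hU hc f - Kop μ U hU hc f' = Kop μ U hU hc (f - f') := by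
  ext φ
  rw [sub_apply, Kop_apply, Kop_apply, Kop_apply,
    ← integral_sub (integ U hc f φ) (integ U hc f' φ)]
  refine integral_congr_ae (Eventually.of_forall fun g => ?_)
  simp [sub_smul]

lemma Kop_norm_le (U : G → (H →L[ℂ] H))
    (hU : ∀ g φ, ‖U g φ‖ = ‖φ‖) (hc : ∀ φ, Continuous fun g => U g φ) (f : C(G, ℂ)) :
    ‖Kop μ U hU hc f‖ ≤ ‖f‖ * μ.real Set.univ :=
  LinearMap.mkContinuous_norm_le _ (by positivity) _

lemma Kop_continuous (U : G → (H →L[ℂ] H))
    (hU : ∀ g φ, ‖U g φ‖ = ‖φ‖) (hc : ∀ φ, Continuous fun g => U g φ) :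
    Continuous fun f : C(G, ℂ) => Kop μ U hU hc f := by
  refine (LipschitzWith.of_dist_le_mul (K := ⟨μ.real Set.univ, measureReal_nonneg⟩)
    fun f f' => ?_).continuous
  rw [dist_eq_norm, dist_eq_norm, Kop_sub]
  refine (Kop_norm_le U hU hc _).trans (le_of_eq ?_)
  rw [mul_comm]
  rfl

lemma Kop_comm (U : G → (H →L[ℂ] H))
    (hU : ∀ g φ, ‖U g φ‖ = ‖φ‖) (hc : ∀ φ, Continuous fun g => U g φ) (f : C(G, ℂ))
    (b : H →L[ℂ] H) (hb : ∀ g, U g * b = b * U g) :
    b * Kop μ U hU hc f = Kop μ U hU hc f * b := by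
  ext φ
  rw [mul_apply_eq_comp, mul_apply_eq_comp, Kop_apply, Kop_apply,
    ← ContinuousLinearMap.integral_comp_comm b (integ U hc f φ)]
  refine integral_congr_ae (Eventually.of_forall fun g => ?_)
  have := DFunLike.congr_fun (hb g) φ
  rw [mul_apply_eq_comp, mul_apply_eq_comp] at this
  simp only [map_smul]
  rw [this]

lemma Kop_mem (U : G → (H →L[ℂ] H))
    (hU : ∀ g φ, ‖U g φ‖ = ‖φ‖) (hc : ∀ φ, Continuous fun g => U g φ) (f : C(G, ℂ)) :
    Kop μ U hU hc f ∈ bic (Set.range U) := by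
  rw [mem_bic]
  intro b hb
  refine Kop_comm U hU hc f b fun g => ?_
  exact Set.mem_centralizer_iff.1 hb _ (Or.inl ⟨g, rfl⟩)

lemma U_mem (U : G → (H →L[ℂ] H)) (g : G) : U g ∈ bic (Set.range U) := by
  rw [mem_bic]
  intro b hb
  exact (Set.mem_centralizer_iff.1 hb _ (Or.inl ⟨g, rfl⟩)).symm

/-- translates of a continuous function, as a continuous family -/
noncomputable def trf (f : C(G, ℂ)) : C(G, C(G, ℂ)) :=
  ContinuousMap.curry ⟨fun p : G × G => f (p.1⁻¹ * p.2), by fun_prop⟩

lemma trf_apply (f : C(G, ℂ)) (g x : G) : trf f g x = f (g⁻¹ * x) := rfl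

lemma Kop_translate [μ.IsHaarMeasure] (U : G → (H →L[ℂ] H))
    (hU : ∀ g φ, ‖U g φ‖ = ‖φ‖) (hc : ∀ φ, Continuous fun g => U g φ)
    (hmul : ∀ g h, U (g * h) = U g * U h) (f : C(G, ℂ)) (g : G) :
    U g * Kop μ U hU hc f = Kop μ U hU hc (trf f g) := by
  ext φ
  rw [mul_apply_eq_comp, Kop_apply, Kop_apply,
    ← ContinuousLinearMap.integral_comp_comm (U g) (integ U hc f φ),
    ← integral_mul_left_eq_self (μ := μ) (fun h => (trf f g) h • (U h) φ) g]
  refine integral_congr_ae (Eventually.of_forall fun h => ?_)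
  simp only [map_smul, trf_apply, hmul, mul_apply_eq_comp, inv_mul_cancel_left]

lemma Kop_inner (U : G → (H →L[ℂ] H))
    (hU : ∀ g φ, ‖U g φ‖ = ‖φ‖) (hc : ∀ φ, Continuous fun g => U g φ) (f : C(G, ℂ)) (η φ : H) :
    ⟪η, Kop μ U hU hc f φ⟫_ℂ = ∫ g, f g * ⟪η, U g φ⟫_ℂ ∂μ := by
  rw [Kop_apply, ← integral_inner (integ U hc f φ)]
  refine integral_congr_ae (Eventually.of_forall fun g => ?_)
  simp only [inner_smul_right]

theorem gelf {A : Type} [CommCStarAlgebra A] (u : G → A) (k : C(G, ℂ) → A) (hu1 : u 1 = 1)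
    (hmul : ∀ g h, u (g * h) = u g * u h) (hun : ∀ g, ‖u g‖ ≤ 1) (hk : Continuous k)
    (htr : ∀ f g, u g * k f = k (trf f g)) (g₀ : G) (hall : ∀ χ : G →ₜ* Circle, χ g₀ = 1)
    (f : C(G, ℂ)) : u g₀ * k f = k f := by
  have hinj : Function.Injective (WeakDual.gelfandTransform ℂ A) :=
    (gelfandTransform_isometry A).injective
  apply hinj
  ext φ
  rw [WeakDual.gelfandTransform_apply_apply, WeakDual.gelfandTransform_apply_apply, map_mul]
  by_cases h0 : φ (k f) = 0
  · rw [h0, mul_zero]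
  have : Nontrivial A := ⟨⟨k f, 0, fun h => h0 (by rw [h, map_zero])⟩⟩
  -- the character of `G` attached to `φ`
  have hle : ∀ g, ‖φ (u g)‖ ≤ 1 := fun g => by
    refine (AlgHom.norm_apply_le_self (𝕜 := ℂ) φ (u g)).trans (hun g)
  have hone : ∀ g, ‖φ (u g)‖ = 1 := by
    intro g
    have h1 : φ (u g) * φ (u g⁻¹) = 1 := by
      rw [← map_mul, ← hmul, mul_inv_cancel, hu1, map_one]
    have h2 : ‖φ (u g)‖ * ‖φ (u g⁻¹)‖ = 1 := by rw [← norm_mul, h1, norm_one]
    have h3 := hle g
    have h4 := hle g⁻¹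
    have h5 := norm_nonneg (φ (u g))
    nlinarith
  have hcont : Continuous fun g => φ (u g) := by
    have h1 : ∀ g, φ (u g) = φ (k (trf f g)) / φ (k f) := by
      intro g
      rw [eq_div_iff h0, ← map_mul, htr]
    simp only [h1]
    refine Continuous.div_const ?_ _
    exact (map_continuous φ).comp (hk.comp (trf f).continuous)
  have hc2 : Continuous fun g => (⟨φ (u g), mem_sphere_zero_iff_norm.2 (hone g)⟩ : Circle) :=
    Continuous.subtype_mk hcont _
  let χ : G →ₜ* Circle :=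
    { toFun := fun g => ⟨φ (u g), mem_sphere_zero_iff_norm.2 (hone g)⟩
      map_one' := by
        apply Circle.ext
        show φ (u 1) = 1
        rw [hu1, map_one]
      map_mul' := by
        intro g h
        apply Circle.ext
        show φ (u (g * h)) = φ (u g) * φ (u h)
        rw [hmul, map_mul]
      continuous_toFun := hc2 }
  have h3 : φ (u g₀) = 1 := by
    show ((χ g₀ : Circle) : ℂ) = 1
    rw [hall χ, Circle.coe_one]
  rw [h3, one_mul]

/-- For a strongly continuous unitary representation: an element on which all continuous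
characters are trivial acts trivially. -/
theorem rep_trivial [μ.IsHaarMeasure] (U : G → (H →L[ℂ] H)) (hU1 : U 1 = 1)
    (hmul : ∀ g h, U (g * h) = U g * U h)
    (hU : ∀ g φ, ‖U g φ‖ = ‖φ‖) (hc : ∀ φ, Continuous fun g => U g φ) (g₀ : G)
    (hall : ∀ χ : G →ₜ* Circle, χ g₀ = 1) : U g₀ = 1 := by
  -- the adjoint
  have hinn : ∀ g x y, ⟪U g x, U g y⟫_ℂ = ⟪x, y⟫_ℂ := fun g x y =>
    LinearIsometry.inner_map_map (⟨(U g).toLinearMap, hU g⟩ : H →ₗᵢ[ℂ] H) x y
  have hinv : ∀ g x, U g (U g⁻¹ x) = x := by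
    intro g x
    have : (U g * U g⁻¹) x = x := by rw [← hmul, mul_inv_cancel, hU1]; rfl
    exact this
  have hadj : ∀ g x y, ⟪U g x, y⟫_ℂ = ⟪x, U g⁻¹ y⟫_ℂ := by
    intro g x y
    conv_lhs => rw [← hinv g y]
    exact hinn g _ _
  have hstar : ∀ g, star (U g) = U g⁻¹ := by
    intro g
    rw [ContinuousLinearMap.star_eq_adjoint]
    symm
    rw [ContinuousLinearMap.eq_adjoint_iff]
    intro x y
    rw [hadj, inv_inv]
  have hrange : ∀ a ∈ Set.range U ∪ star (Set.range U), ∃ g, a = U g := by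
    rintro a (⟨g, rfl⟩ | h)
    · exact ⟨g, rfl⟩
    · rw [Set.mem_star] at h
      obtain ⟨g, hg⟩ := h
      refine ⟨g⁻¹, ?_⟩
      rw [← hstar, hg, star_star]
  have hS : ∀ a ∈ Set.range U ∪ star (Set.range U), ∀ b ∈ Set.range U ∪ star (Set.range U),
      a * b = b * a := by
    intro a ha b hb
    obtain ⟨g, rfl⟩ := hrange a ha
    obtain ⟨h, rfl⟩ := hrange b hb
    rw [← hmul, ← hmul, mul_comm]
  have key : ∀ f : C(G, ℂ), U g₀ * Kop μ U hU hc f = Kop μ U hU hc f := by
    intro f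
    have h1 := @gelf G _ _ _ _ _ _ (bic (Set.range U)) (bicInst hS) (fun g => ⟨U g, U_mem U g⟩)
      (fun f => ⟨Kop μ U hU hc f, Kop_mem U hU hc f⟩) (Subtype.ext hU1)
      (fun g h => Subtype.ext (hmul g h))
      (fun g => ContinuousLinearMap.opNorm_le_bound _ zero_le_one fun φ => by
        show ‖U g φ‖ ≤ 1 * ‖φ‖
        rw [hU, one_mul])
      (Continuous.subtype_mk (Kop_continuous U hU hc) _)
      (fun f g => Subtype.ext (Kop_translate U hU hc hmul f g)) g₀ hall f
    exact congrArg Subtype.val h1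
  have h2 : ∀ ξ φ : H, ⟪U g₀⁻¹ ξ - ξ, φ⟫_ℂ = 0 := by
    intro ξ φ
    set η := U g₀⁻¹ ξ - ξ with hη
    have hm : Continuous fun g => ⟪η, U g φ⟫_ℂ := by
      have := hc φ
      fun_prop
    let f₀ : C(G, ℂ) := ⟨fun g => conj ⟪η, U g φ⟫_ℂ, Complex.continuous_conj.comp hm⟩
    have h3 : ⟪η, Kop μ U hU hc f₀ φ⟫_ℂ = 0 := by
      rw [hη, inner_sub_left, hadj, inv_inv]
      have := DFunLike.congr_fun (key f₀) φ
      rw [mul_apply_eq_comp] at this
      rw [this, sub_self]
    rw [Kop_inner] at h3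
    have h4 : ∀ g, f₀ g * ⟪η, U g φ⟫_ℂ = ((‖⟪η, U g φ⟫_ℂ‖ ^ 2 : ℝ) : ℂ) := by
      intro g
      show conj ⟪η, U g φ⟫_ℂ * ⟪η, U g φ⟫_ℂ = _
      rw [Complex.conj_mul']
      push_cast
      rfl
    simp only [h4] at h3
    rw [integral_complex_ofReal, Complex.ofReal_eq_zero] at h3
    have hm2 : Continuous fun g => ‖⟪η, U g φ⟫_ℂ‖ ^ 2 := hm.norm.pow 2
    rw [integral_eq_zero_iff_of_nonneg (fun g => by positivity)
      (hm2.integrable_of_hasCompactSupport (HasCompactSupport.of_compactSpace _))] at h3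
    have h5 := (hm2.ae_eq_iff_eq μ continuous_zero).1 h3
    have h6 := congrFun h5 1
    simp only [hU1, Pi.zero_apply] at h6
    have h7 : ‖⟪η, φ⟫_ℂ‖ = 0 := by
      simpa using h6
    exact norm_eq_zero.1 h7
  have h8 : ∀ ξ, U g₀⁻¹ ξ = ξ := fun ξ => sub_eq_zero.1 (by
    have := h2 ξ (U g₀⁻¹ ξ - ξ)
    exact inner_self_eq_zero.1 this)
  ext ξ
  have h9 := hinv g₀ ξ
  rw [h8] at h9
  exact h9

end Abstract

section Regular

variable {X : Type} [CommGroup X] [TopologicalSpace X] [IsTopologicalGroup X] [CompactSpace X]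
  [T2Space X] [MeasurableSpace X] [BorelSpace X]

/-- the regular representation -/
noncomputable def regrep (μ : Measure X) [μ.IsHaarMeasure] (g : X) :
    Lp ℂ 2 μ →L[ℂ] Lp ℂ 2 μ :=
  LinearMap.mkContinuous
    { toFun := fun φ => DomMulAct.mk g • φ
      map_add' := fun φ ψ => smul_add _ _ _
      map_smul' := fun c φ => smul_comm _ _ _ } 1 (by
      intro φ
      rw [one_mul]
      exact le_of_eq (DomMulAct.norm_smul_Lp _ _))

lemma regrep_apply (μ : Measure X) [μ.IsHaarMeasure] (g : X) (φ : Lp ℂ 2 μ) :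
    regrep μ g φ = DomMulAct.mk g • φ := rfl

/-- **Characters separate points** of a compact abelian group. -/
theorem exists_char (g₀ : X) (h : g₀ ≠ 1) : ∃ χ : X →ₜ* Circle, χ g₀ ≠ 1 := by
  by_contra hall
  push Not at hall
  set μ : Measure X := Measure.haar with hμ
  have hfact : Fact ((2 : ℝ≥0∞) ≠ ∞) := ⟨by norm_num⟩
  have h1 : regrep μ g₀ = 1 := by
    refine rep_trivial (μ := μ) (regrep μ) ?_ ?_ ?_ ?_ g₀ hall
    · ext1 φ
      rw [regrep_apply, DomMulAct.mk_one, one_smul]
      rfl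
    · intro g h
      ext1 φ
      rw [mul_apply_eq_comp, regrep_apply, regrep_apply, regrep_apply, mul_comm,
        DomMulAct.mk_mul, mul_smul]
    · intro g φ
      exact DomMulAct.norm_smul_Lp _ _
    · intro φ
      have : Continuous fun g : X => DomMulAct.mk g • φ := by
        exact (DomMulAct.continuous_mk).smul continuous_const
      exact this
  -- a function which distinguishes `g₀` from `1`
  obtain ⟨f, hf0, hf1, -⟩ := exists_continuous_zero_one_of_isClosed
    (isClosed_singleton (x := g₀)) (isClosed_singleton (x := (1 : X)))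
    (by rw [Set.disjoint_singleton]; exact h)
  have hfL : MemLp (fun x => ((f x : ℝ) : ℂ)) 2 μ := by
    have hc : Continuous fun x => ((f x : ℝ) : ℂ) := by fun_prop
    exact hc.memLp_of_hasCompactSupport (HasCompactSupport.of_compactSpace _)
  have h2 := DFunLike.congr_fun h1 (hfL.toLp _)
  rw [regrep_apply, DomMulAct.mk_smul_toLp] at h2
  have h3 : (fun x => ((f (g₀ * x) : ℝ) : ℂ)) =ᵐ[μ] fun x => ((f x : ℝ) : ℂ) := by
    have h4 := (MemLp.toLp_eq_toLp_iff _ hfL).1 h2
    exact h4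
  have h5 := (Continuous.ae_eq_iff_eq μ (by fun_prop) (by fun_prop)).1 h3
  have h6 := congrFun h5 1
  have h7 : f g₀ = 0 := hf0 (Set.mem_singleton _)
  have h8 : f 1 = 1 := hf1 (Set.mem_singleton _)
  simp [h7, h8] at h6

end Regular

end Pool.Agent.Lib.Pf720ae.Alg
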