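import Pool.Agent.Lib.Pf720ae.Alg.Dual
import Pool.Agent.Lib.Pf720ae.Principle
import Pool.Agent.Lib.Pf720ae.H8

/-!
# Density of trigonometric polynomials, passage to bounded functions
-/

set_option autoImplicit false
set_option linter.unusedSectionVars false

open Finset MeasureTheory Filter Topology
open scoped ENNReal ComplexConjugate

namespace Pool.Agent.Lib.Pf720ae.Alg

variable {X : Type} [CommGroup X] [TopologicalSpace X]

/-- real and imaginary parts of characters as continuous functions -/
noncomputable def prt (b : Bool) (χ : X →ₜ* Circle) : C(X, ℝ) where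
  toFun x := if b then ((χ x : Circle) : ℂ).re else ((χ x : Circle) : ℂ).im
  continuous_toFun := by
    cases b
    · exact Complex.continuous_im.comp (continuous_subtype_val.comp (map_continuous χ))
    · exact Complex.continuous_re.comp (continuous_subtype_val.comp (map_continuous χ))

lemma prt_true (χ : X →ₜ* Circle) (x : X) : prt true χ x = ((χ x : Circle) : ℂ).re := rfl
lemma prt_false (χ : X →ₜ* Circle) (x : X) : prt false χ x = ((χ x : Circle) : ℂ).im := rfl

/-- the span of the real and imaginary parts of characters -/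
noncomputable def tsp (X : Type) [CommGroup X] [TopologicalSpace X] : Submodule ℝ C(X, ℝ) :=
  Submodule.span ℝ (Set.range fun p : Bool × (X →ₜ* Circle) => prt p.1 p.2)

lemma prt_mem (b : Bool) (χ : X →ₜ* Circle) : prt b χ ∈ tsp X :=
  Submodule.subset_span ⟨(b, χ), rfl⟩

lemma coe_mul' (χ ψ : X →ₜ* Circle) (x : X) :
    (((χ * ψ) x : Circle) : ℂ) = ((χ x : Circle) : ℂ) * ((ψ x : Circle) : ℂ) := rfl

lemma coe_inv' (ψ : X →ₜ* Circle) (x : X) :
    ((ψ⁻¹ x : Circle) : ℂ) = conj ((ψ x : Circle) : ℂ) := by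
  rw [← Circle.coe_inv_eq_conj]
  rfl

lemma prt_mul_mem (p q : Bool × (X →ₜ* Circle)) : prt p.1 p.2 * prt q.1 q.2 ∈ tsp X := by
  obtain ⟨b, χ⟩ := p
  obtain ⟨c, ψ⟩ := q
  cases b <;> cases c
  · have : prt false χ * prt false ψ = (1 / 2 : ℝ) • prt true (χ * ψ⁻¹) -
        (1 / 2 : ℝ) • prt true (χ * ψ) := by
      ext x
      simp only [ContinuousMap.mul_apply, ContinuousMap.sub_apply, ContinuousMap.smul_apply,
        prt_true, prt_false, coe_mul', coe_inv', Complex.mul_re, Complex.conj_re, Complex.conj_im,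
        smul_eq_mul]
      ring
    rw [this]
    exact Submodule.sub_mem _ (Submodule.smul_mem _ _ (prt_mem _ _))
      (Submodule.smul_mem _ _ (prt_mem _ _))
  · have : prt false χ * prt true ψ = (1 / 2 : ℝ) • prt false (χ * ψ) +
        (1 / 2 : ℝ) • prt false (χ * ψ⁻¹) := by
      ext x
      simp only [ContinuousMap.mul_apply, ContinuousMap.add_apply, ContinuousMap.smul_apply,
        prt_true, prt_false, coe_mul', coe_inv', Complex.mul_im, Complex.conj_re, Complex.conj_im,
        smul_eq_mul]
      ring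
    rw [this]
    exact Submodule.add_mem _ (Submodule.smul_mem _ _ (prt_mem _ _))
      (Submodule.smul_mem _ _ (prt_mem _ _))
  · have : prt true χ * prt false ψ = (1 / 2 : ℝ) • prt false (χ * ψ) -
        (1 / 2 : ℝ) • prt false (χ * ψ⁻¹) := by
      ext x
      simp only [ContinuousMap.mul_apply, ContinuousMap.sub_apply, ContinuousMap.smul_apply,
        prt_true, prt_false, coe_mul', coe_inv', Complex.mul_im, Complex.conj_re, Complex.conj_im,
        smul_eq_mul]
      ring
    rw [this]
    exact Submodule.sub_mem _ (Submodule.smul_mem _ _ (prt_mem _ _))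
      (Submodule.smul_mem _ _ (prt_mem _ _))
  · have : prt true χ * prt true ψ = (1 / 2 : ℝ) • prt true (χ * ψ) +
        (1 / 2 : ℝ) • prt true (χ * ψ⁻¹) := by
      ext x
      simp only [ContinuousMap.mul_apply, ContinuousMap.add_apply, ContinuousMap.smul_apply,
        prt_true, prt_false, coe_mul', coe_inv', Complex.mul_re, Complex.conj_re, Complex.conj_im,
        smul_eq_mul]
      ring
    rw [this]
    exact Submodule.add_mem _ (Submodule.smul_mem _ _ (prt_mem _ _))
      (Submodule.smul_mem _ _ (prt_mem _ _))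

lemma tsp_mul (x y : C(X, ℝ)) (hx : x ∈ tsp X) (hy : y ∈ tsp X) : x * y ∈ tsp X := by
  induction hx using Submodule.span_induction with
  | mem x hx =>
    obtain ⟨p, rfl⟩ := hx
    induction hy using Submodule.span_induction with
    | mem y hy =>
      obtain ⟨q, rfl⟩ := hy
      exact prt_mul_mem p q
    | zero => rw [mul_zero]; exact Submodule.zero_mem _
    | add y z _ _ hy hz => rw [mul_add]; exact Submodule.add_mem _ hy hz
    | smul c y _ hy => rw [mul_smul_comm]; exact Submodule.smul_mem _ _ hy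
  | zero => rw [zero_mul]; exact Submodule.zero_mem _
  | add x z _ _ hx hz => rw [add_mul]; exact Submodule.add_mem _ hx hz
  | smul c x _ hx => rw [smul_mul_assoc]; exact Submodule.smul_mem _ _ hx

lemma one_mem_tsp : (1 : C(X, ℝ)) ∈ tsp X := by
  have : (1 : C(X, ℝ)) = prt true (1 : X →ₜ* Circle) := by
    ext x
    rw [prt_true]
    change (1 : ℝ) = ((1 : Circle) : ℂ).re
    simp
  rw [this]
  exact prt_mem _ _

/-- trigonometric polynomials are dense -/
theorem tsp_dense [CompactSpace X] (hsep : ∀ x : X, x ≠ 1 → ∃ χ : X →ₜ* Circle, χ x ≠ 1) :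
    (tsp X).topologicalClosure = ⊤ := by
  have h1 := ContinuousMap.subalgebra_topologicalClosure_eq_top_of_separatesPoints
    ((tsp X).toSubalgebra one_mem_tsp tsp_mul) (by
      intro x y hxy
      obtain ⟨χ, hχ⟩ := hsep (x / y) (by rwa [ne_eq, div_eq_one])
      rw [map_div, ne_eq, div_eq_one] at hχ
      have h2 : ((χ x : Circle) : ℂ) ≠ ((χ y : Circle) : ℂ) := fun h => hχ (Circle.ext h)
      by_cases hre : ((χ x : Circle) : ℂ).re = ((χ y : Circle) : ℂ).re
      · refine ⟨prt false χ, ⟨prt false χ, prt_mem _ _, rfl⟩, fun h => ?_⟩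
        exact h2 (Complex.ext hre h)
      · exact ⟨prt true χ, ⟨prt true χ, prt_mem _ _, rfl⟩, fun h => hre h⟩)
  rw [Submodule.eq_top_iff']
  intro f
  have h2 : f ∈ ((tsp X).toSubalgebra one_mem_tsp tsp_mul).topologicalClosure := by
    rw [h1]; trivial
  exact h2

variable [MeasurableSpace X] [BorelSpace X] {μ : Measure X}

/-- square integrable functions orthogonal to the trigonometric polynomials vanish -/
theorem eq_zero_of_orth [CompactSpace X] [T2Space X] [IsFiniteMeasure μ] [μ.WeaklyRegular]
    (hsep : ∀ x : X, x ≠ 1 → ∃ χ : X →ₜ* Circle, χ x ≠ 1) {φ : X → ℝ} (hφ : MemLp φ 2 μ)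
    (h : ∀ (b : Bool) (χ : X →ₜ* Circle), ∫ x, φ x * prt b χ x ∂μ = 0) : φ =ᵐ[μ] 0 := by
  set f := hφ.toLp φ with hf
  set L := (ContinuousMap.toLp (E := ℝ) 2 μ ℝ : C(X, ℝ) →L[ℝ] Lp ℝ 2 μ) with hL
  -- the functional
  have h1 : ∀ g ∈ tsp X, inner ℝ f (L g) = 0 := by
    intro g hg
    induction hg using Submodule.span_induction with
    | mem x hx =>
      obtain ⟨p, rfl⟩ := hx
      rw [L2.inner_def, ← h p.1 p.2]
      refine integral_congr_ae ?_
      filter_upwards [hφ.coeFn_toLp, ContinuousMap.coeFn_toLp (𝕜 := ℝ) (p := 2) μ (prt p.1 p.2)]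
        with x hx hx'
      rw [hf, hL, hx, hx']
      simp [mul_comm]
    | zero => simp
    | add x y _ _ hx hy => rw [map_add, inner_add_right, hx, hy, add_zero]
    | smul c x _ hx => rw [map_smul, inner_smul_right, hx, mul_zero]
  have h2 : ∀ g : C(X, ℝ), inner ℝ f (L g) = 0 := by
    intro g
    have hg : g ∈ closure (tsp X : Set C(X, ℝ)) := by
      rw [← Submodule.topologicalClosure_coe, tsp_dense hsep]
      trivial
    have hcl : IsClosed {g : C(X, ℝ) | inner ℝ f (L g) = 0} :=
      isClosed_eq (continuous_const.inner L.continuous) continuous_const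
    exact closure_minimal (fun g hg => h1 g hg) hcl hg
  have h3 : ∀ g : Lp ℝ 2 μ, inner ℝ f g = 0 := by
    intro g
    have hg : g ∈ closure (Set.range L) := by
      have := ContinuousMap.toLp_denseRange (p := 2) (E := ℝ) (μ := μ) ℝ (by norm_num)
      exact this g
    have hcl : IsClosed {g : Lp ℝ 2 μ | inner ℝ f g = 0} :=
      isClosed_eq (continuous_const.inner continuous_id) continuous_const
    refine closure_minimal ?_ hcl hg
    rintro _ ⟨g, rfl⟩
    exact h2 g
  have h4 : f = 0 := inner_self_eq_zero.1 (h3 f)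
  have h5 := hφ.coeFn_toLp
  rw [← hf, h4] at h5
  exact h5.symm.trans (Lp.coeFn_zero ℝ 2 μ)

end Pool.Agent.Lib.Pf720ae.Alg
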